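import Pool.Agent.H84.R2.Plane

/-!
# Moser's argument for a family of diffeomorphisms of the plane
-/

set_option autoImplicit false

open Set Filter Topology Metric Function
open scoped ContDiff

noncomputable section

namespace Pool.Agent.H84.R2

open Pool.Agent.W133.DQ Pool.Agent.H84.PP Pool.Agent.X277.Sy Pool.Agent.H83.BI

theorem ar_ne_zero {A : P2 →L[ℝ] P2} (hA : Injective A) : ar (A (1, 0)) (A (0, 1)) ≠ 0 := by
  have hs : Surjective A := (LinearMap.injective_iff_surjective (f := (A : P2 →ₗ[ℝ] P2))).1 hA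
  obtain ⟨u, hu⟩ := hs (1, 0)
  obtain ⟨w, hw⟩ := hs (0, 1)
  intro h
  have h1 := ar_map A u w
  rw [h, zero_mul, hu, hw] at h1
  simp [ar] at h1

variable {k : ℕ}

/-- the density of a family of maps -/
def den (Φ : TM k → P2) (z : TM k) : ℝ :=
  ar (fderiv ℝ Φ z (di k (1, 0))) (fderiv ℝ Φ z (di k (0, 1)))

theorem den_smooth {Φ : TM k → P2} (hΦ : ContDiff ℝ ∞ Φ) : ContDiff ℝ ∞ (den Φ) := by
  have h : ∀ u : TM k, ContDiff ℝ ∞ (fun z => fderiv ℝ Φ z u) := fun u =>
    (hΦ.fderiv_right (m := ∞) (by simp)).clm_apply contDiff_const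
  unfold den ar
  exact ((contDiff_fst.comp (h _)).mul (contDiff_snd.comp (h _))).sub
    ((contDiff_snd.comp (h _)).mul (contDiff_fst.comp (h _)))

/-- The density is a divergence. -/
theorem exists_div {Φ : TM k → P2} (hΦ : ContDiff ℝ ∞ Φ) {R : ℝ}
    (hR : ∀ s w, R ≤ ‖w‖ → Φ (s, w) = w.2) :
    ∃ a : TM k → P2, ContDiff ℝ ∞ a ∧ (∀ z : TM k, R < ‖z.2‖ → a z = 0) ∧
      ∀ z, (fderiv ℝ a z (di k (1, 0))).1 + (fderiv ℝ a z (di k (0, 1))).2 = den Φ z - 1 := by
  set dx : TM k := di k (1, 0) with hdx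
  set dy : TM k := di k (0, 1) with hdy
  set X : TM k → ℝ := fun z => (Φ z).1 with hX0
  set Y : TM k → ℝ := fun z => (Φ z).2 with hY0
  have hX : ContDiff ℝ ∞ X := contDiff_fst.comp hΦ
  have hY : ContDiff ℝ ∞ Y := contDiff_snd.comp hΦ
  have hXd : ∀ z, HasFDerivAt X (fderiv ℝ X z) z := fun z =>
    (hX.differentiable (by simp) z).hasFDerivAt
  have hΦd : ∀ z, HasFDerivAt Φ (fderiv ℝ Φ z) z := fun z =>
    (hΦ.differentiable (by simp) z).hasFDerivAt
  have hXf : ∀ z u, fderiv ℝ X z u = (fderiv ℝ Φ z u).1 := by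
    intro z u
    have h1 : HasFDerivAt X ((ContinuousLinearMap.fst ℝ ℝ ℝ).comp (fderiv ℝ Φ z)) z :=
      (ContinuousLinearMap.fst ℝ ℝ ℝ).hasFDerivAt.comp z (hΦd z)
    rw [h1.fderiv]
    rfl
  have hYf : ∀ z u, fderiv ℝ Y z u = (fderiv ℝ Φ z u).2 := by
    intro z u
    have h1 : HasFDerivAt Y ((ContinuousLinearMap.snd ℝ ℝ ℝ).comp (fderiv ℝ Φ z)) z :=
      (ContinuousLinearMap.snd ℝ ℝ ℝ).hasFDerivAt.comp z (hΦd z)
    rw [h1.fderiv]
    rfl
  have hYs : ContDiff ℝ ∞ (fderiv ℝ Y) := hY.fderiv_right (m := ∞) (by simp)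
  have hYdd : ∀ z u, HasFDerivAt (fun z => fderiv ℝ Y z u) ((fderiv ℝ (fderiv ℝ Y) z).flip u) z := by
    intro z u
    have h3 := (hYs.differentiable (by simp) z).hasFDerivAt.clm_apply (hasFDerivAt_const u z)
    refine h3.congr_fderiv ?_
    apply ContinuousLinearMap.ext
    intro w
    simp
  set xx : TM k →L[ℝ] ℝ := (ContinuousLinearMap.fst ℝ ℝ ℝ).comp
    ((ContinuousLinearMap.snd ℝ (EuclideanSpace ℝ (Fin k)) P2).comp
      (ContinuousLinearMap.snd ℝ ℝ (EuclideanSpace ℝ (Fin k) × P2))) with hxx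
  refine ⟨fun z => (X z * fderiv ℝ Y z dy - xx z, -(X z * fderiv ℝ Y z dx)), ?_, ?_, ?_⟩
  · exact ((hX.mul (hYs.clm_apply contDiff_const)).sub xx.contDiff).prodMk
      (hX.mul (hYs.clm_apply contDiff_const)).neg
  · intro z hz
    have h1 : Φ =ᶠ[𝓝 z] fun z => z.2.2 := by
      filter_upwards [(isOpen_lt continuous_const continuous_snd.norm).mem_nhds hz] with w hw
      exact hR w.1 w.2 (le_of_lt hw)
    have h2 : ∀ u, fderiv ℝ Φ z u = u.2.2 := by
      intro u
      rw [h1.fderiv_eq]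
      have h3 : HasFDerivAt (fun z : TM k => z.2.2)
        ((ContinuousLinearMap.snd ℝ (EuclideanSpace ℝ (Fin k)) P2).comp
          (ContinuousLinearMap.snd ℝ ℝ (EuclideanSpace ℝ (Fin k) × P2))) z :=
        ((ContinuousLinearMap.snd ℝ (EuclideanSpace ℝ (Fin k)) P2).comp
          (ContinuousLinearMap.snd ℝ ℝ (EuclideanSpace ℝ (Fin k) × P2))).hasFDerivAt
      rw [h3.fderiv]
      rfl
    have h3 : X z = z.2.2.1 := congrArg Prod.fst (hR z.1 z.2 hz.le)
    have h4 : fderiv ℝ Y z dy = 1 := by rw [hYf, h2]; rfl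
    have h5 : fderiv ℝ Y z dx = 0 := by rw [hYf, h2]; rfl
    show (X z * fderiv ℝ Y z dy - xx z, -(X z * fderiv ℝ Y z dx)) = 0
    rw [h3, h4, h5]
    show (z.2.2.1 * 1 - z.2.2.1, -(z.2.2.1 * 0)) = (0 : ℝ × ℝ)
    simp
  · intro z
    have h1 : HasFDerivAt (fun z => (X z * fderiv ℝ Y z dy - xx z, -(X z * fderiv ℝ Y z dx)))
        (((X z • (fderiv ℝ (fderiv ℝ Y) z).flip dy + fderiv ℝ Y z dy • fderiv ℝ X z) - xx).prod
          (-(X z • (fderiv ℝ (fderiv ℝ Y) z).flip dx + fderiv ℝ Y z dx • fderiv ℝ X z))) z :=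
      (((hXd z).mul (hYdd z dy)).sub xx.hasFDerivAt).prodMk ((hXd z).mul (hYdd z dx)).neg
    rw [h1.fderiv]
    have hsymm : IsSymmSndFDerivAt ℝ Y z := hY.contDiffAt.isSymmSndFDerivAt two_le_infty
    have h2 := hsymm.eq dx dy
    have h3 : xx dx = 1 := rfl
    simp only [ContinuousLinearMap.prod_apply, sub_apply, add_apply,
      smul_apply, neg_apply, ContinuousLinearMap.flip_apply, smul_eq_mul, h3]
    unfold den ar
    rw [← hdx, ← hdy, ← hXf, ← hXf, ← hYf, ← hYf, h2]
    ring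

theorem correct {Φ : TM k → P2} (hΦ : ContDiff ℝ ∞ Φ) {R : ℝ}
    (hR : ∀ s w, R ≤ ‖w‖ → Φ (s, w) = w.2) (hpos : ∀ z, 0 < den Φ z) :
    ∃ (χ : ℝ × TM k → P2) (R' : ℝ), ContDiff ℝ ∞ χ ∧ (∀ z, χ (0, z) = z.2.2) ∧
      (∀ t s w, R' ≤ ‖w‖ → χ (t, (s, w)) = w.2) ∧
      ∀ t (z : TM k), z.1 ∈ Icc (0 : ℝ) 1 →
        ar (fderiv ℝ χ (t, z) (0, di k (1, 0))) (fderiv ℝ χ (t, z) (0, di k (0, 1))) *
          (1 + Real.smoothTransition t * (den Φ (z.1, (z.2.1, χ (t, z))) - 1)) = 1 := by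
  obtain ⟨a, has, haR, hadiv⟩ := exists_div hΦ hR
  set σ : ℝ → ℝ := Real.smoothTransition with hσ
  have hσs : ContDiff ℝ ∞ σ := Real.smoothTransition.contDiff
  have hσd : ContDiff ℝ ∞ (deriv σ) := (contDiff_infty_iff_deriv.1 hσs).2
  have hσ0 : ∀ t, 0 ≤ σ t := fun t => Real.smoothTransition.nonneg t
  have hσ1 : ∀ t, σ t ≤ 1 := fun t => Real.smoothTransition.le_one t
  have hd0 : ∀ t, t < 0 → deriv σ t = 0 := by
    intro t ht
    have h1 : σ =ᶠ[𝓝 t] fun _ => 0 := by
      filter_upwards [Iio_mem_nhds ht] with r hr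
      exact Real.smoothTransition.zero_of_nonpos (le_of_lt hr)
    rw [h1.deriv_eq]
    simp
  have hd1 : ∀ t, 1 < t → deriv σ t = 0 := by
    intro t ht
    have h1 : σ =ᶠ[𝓝 t] fun _ => 1 := by
      filter_upwards [Ioi_mem_nhds ht] with r hr
      exact Real.smoothTransition.one_of_one_le (le_of_lt hr)
    rw [h1.deriv_eq]
    simp
  -- the cutoff
  set c : ℝ → ℝ := fun s => σ (s + 2) * σ (3 - s) with hc
  have hcs : ContDiff ℝ ∞ c :=
    (hσs.comp (contDiff_id.add contDiff_const)).mul (hσs.comp (contDiff_const.sub contDiff_id))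
  have hc1 : ∀ s ∈ Icc (0 : ℝ) 1, c s = 1 := by
    intro s hs
    simp only [hc]
    rw [hσ, Real.smoothTransition.one_of_one_le (by linarith [hs.1]),
      Real.smoothTransition.one_of_one_le (by linarith [hs.2]), mul_one]
  have hc0 : ∀ s, 3 ≤ |s| → c s = 0 := by
    intro s hs
    simp only [hc]
    rcases le_abs'.1 hs with h | h
    · rw [hσ, Real.smoothTransition.zero_of_nonpos (x := s + 2) (by linarith), zero_mul]
    · rw [hσ, Real.smoothTransition.zero_of_nonpos (x := 3 - s) (by linarith), mul_zero]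
  -- the density
  set ρ : ℝ × TM k → ℝ := fun q => 1 + σ q.1 * (den Φ q.2 - 1) with hρ
  have hρs : ContDiff ℝ ∞ ρ :=
    contDiff_const.add ((hσs.comp contDiff_fst).mul
      (((den_smooth hΦ).comp contDiff_snd).sub contDiff_const))
  have hρ0 : ∀ q, 0 < ρ q := by
    intro q
    have h1 := hpos q.2
    have h2 := hσ0 q.1
    have h3 := hσ1 q.1
    have h4 : ρ q = (1 - σ q.1) + σ q.1 * den Φ q.2 := by simp only [hρ]; ring
    rw [h4]
    rcases h2.eq_or_lt with h5 | h5
    · rw [← h5]; norm_num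
    · have := mul_pos h5 h1
      linarith
  set κ : ℝ × TM k → ℝ := fun q => deriv σ q.1 * c q.2.1 with hκ
  have hκs : ContDiff ℝ ∞ κ :=
    (hσd.comp contDiff_fst).mul (hcs.comp (contDiff_fst.comp contDiff_snd))
  set v : ℝ × TM k → P2 := fun q => (ρ q)⁻¹ • (-(κ q) • a q.2) with hv
  have hvs : ContDiff ℝ ∞ v :=
    (hρs.inv fun q => (hρ0 q).ne').smul (hκs.neg.smul (has.comp contDiff_snd))
  set Y : ℝ × TM k → TM k := fun q => di k (v q) with hY
  have hYs : ContDiff ℝ ∞ Y := (di k).contDiff.comp hvs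
  have hv0 : ∀ q : ℝ × TM k, (κ q = 0 ∨ a q.2 = 0) → v q = 0 := by
    intro q h
    simp only [hv]
    rcases h with h | h
    · rw [h, neg_zero, zero_smul, smul_zero]
    · rw [h, smul_zero, smul_zero]
  set R' : ℝ := max (R + 1) 3 with hR'
  have hYR : ∀ s x, R' ≤ ‖x‖ → Y (s, x) = 0 := by
    intro s x hx
    have h1 : v (s, x) = 0 := by
      apply hv0
      rw [Prod.norm_def] at hx
      rcases le_max_iff.1 hx with h | h
      · left
        simp only [hκ]
        rw [hc0 _ ((le_max_right _ _).trans h), mul_zero]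
      · right
        apply haR
        have := (le_max_left (R + 1) 3).trans h
        linarith
    simp only [hY, h1, map_zero]
  have hYc : HasCompactSupport Y := by
    refine HasCompactSupport.intro ((isCompact_Icc (a := (0 : ℝ)) (b := 1)).prod
      (isCompact_closedBall (0 : TM k) R')) ?_
    rintro ⟨s, x⟩ hp
    by_cases hx : R' ≤ ‖x‖
    · exact hYR s x hx
    · have hx' : x ∈ closedBall (0 : TM k) R' := by
        rw [mem_closedBall_zero_iff]; exact (not_le.1 hx).le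
      have h1 : v (s, x) = 0 := by
        apply hv0
        left
        simp only [hκ]
        by_cases h1 : s < 0
        · rw [hd0 _ h1, zero_mul]
        · by_cases h2 : 1 < s
          · rw [hd1 _ h2, zero_mul]
          · exact absurd (mk_mem_prod (⟨not_lt.1 h1, not_lt.1 h2⟩ : s ∈ Icc (0 : ℝ) 1) hx') hp
      simp only [hY, h1, map_zero]
  obtain ⟨Ξ, hΞ, hΞ0, hΞd, hΞR, hΞi⟩ := flow_triv Y hYs hYc (R := R') hYR
  have hfix1 : ∀ t z, (Ξ (t, z)).1 = z.1 := by
    intro t z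
    have h1 : ∀ t, HasDerivAt (fun t => (Ξ (t, z)).1) 0 t := fun t =>
      (ContinuousLinearMap.fst ℝ ℝ (EuclideanSpace ℝ (Fin k) × P2)).hasFDerivAt.comp_hasDerivAt t
        (hΞd t z)
    have h2 := is_const_of_deriv_eq_zero (fun s => (h1 s).differentiableAt)
      (fun s => (h1 s).deriv) t 0
    rw [h2, hΞ0]
  have hfix2 : ∀ t z, (Ξ (t, z)).2.1 = z.2.1 := by
    intro t z
    have h1 : ∀ t, HasDerivAt (fun t => (Ξ (t, z)).2.1) 0 t := fun t =>
      ((ContinuousLinearMap.fst ℝ (EuclideanSpace ℝ (Fin k)) P2).comp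
        (ContinuousLinearMap.snd ℝ ℝ (EuclideanSpace ℝ (Fin k) × P2))).hasFDerivAt.comp_hasDerivAt t
        (hΞd t z)
    have h2 := is_const_of_deriv_eq_zero (fun s => (h1 s).differentiableAt)
      (fun s => (h1 s).deriv) t 0
    rw [h2, hΞ0]
  set χ : ℝ × TM k → P2 := fun q => (Ξ q).2.2 with hχ
  have hχs : ContDiff ℝ ∞ χ := contDiff_snd.comp (contDiff_snd.comp hΞ)
  have hΞe : ∀ t z, Ξ (t, z) = (z.1, (z.2.1, χ (t, z))) := fun t z =>
    Prod.ext (hfix1 t z) (Prod.ext (hfix2 t z) rfl)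
  have hχd : ∀ z t, HasDerivAt (fun t => χ (t, z)) (v (t, (z.1, (z.2.1, χ (t, z))))) t := by
    intro z t
    have h1 : HasDerivAt (fun t => χ (t, z)) (v (t, Ξ (t, z))) t :=
      ((ContinuousLinearMap.snd ℝ (EuclideanSpace ℝ (Fin k)) P2).comp
        (ContinuousLinearMap.snd ℝ ℝ (EuclideanSpace ℝ (Fin k) × P2))).hasFDerivAt.comp_hasDerivAt t
        (hΞd t z)
    rwa [hΞe] at h1
  refine ⟨χ, R', hχs, fun z => by simp only [hχ]; rw [hΞ0], fun t s w hw => ?_, fun t z hz => ?_⟩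
  · simp only [hχ]
    rw [hΞR]
    rw [Prod.norm_def]
    exact hw.trans (le_max_right _ _)
  · -- freeze the parameters
    obtain ⟨s, b, p⟩ := z
    simp only at hz
    set J : ℝ × P2 →L[ℝ] ℝ × TM k := ContinuousLinearMap.prodMap (ContinuousLinearMap.id ℝ ℝ) (di k)
      with hJ
    set o : ℝ × TM k := (0, (s, (b, 0))) with ho
    have hι : ∀ q : ℝ × P2, o + J q = (q.1, (s, (b, q.2))) := by
      intro q
      show ((0 : ℝ) + q.1, ((s + 0, (b + 0, 0 + q.2)) : TM k)) = _
      simp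
    have hιd : ∀ q : ℝ × P2, HasFDerivAt (fun q => o + J q) J q := fun q =>
      J.hasFDerivAt.const_add o
    have hιs : ContDiff ℝ ∞ (fun q => o + J q) := contDiff_const.add J.contDiff
    have key := flow_density (χ := fun q => χ (o + J q)) (hχs.comp hιs)
      (v := fun q => v (o + J q)) (hvs.comp hιs) (ρ := fun q => ρ (o + J q)) (hρs.comp hιs)
      (fun p => by
        simp only [hι, hχ]
        rw [hΞ0]) (fun p t => by
        simp only [hι]
        exact hχd (s, (b, p)) t) ?_ t p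
    · have hchd : ∀ u : P2, fderiv ℝ (fun q => χ (o + J q)) (t, p) (0, u) =
          fderiv ℝ χ (t, (s, (b, p))) (0, di k u) := by
        intro u
        have h1 : HasFDerivAt (fun q => χ (o + J q)) ((fderiv ℝ χ (o + J (t, p))).comp J) (t, p) :=
          ((hχs.differentiable (by simp) _).hasFDerivAt).comp (t, p) (hιd (t, p))
        rw [h1.fderiv, hι]
        rfl
      rw [hchd, hchd] at key
      simp only [hι] at key
      simp only [hρ] at key
      have h0 : σ 0 = 0 := Real.smoothTransition.zero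
      rw [h0, zero_mul, add_zero] at key
      exact key
    · intro q
      have hprod : (fun q => ρ (o + J q) • v (o + J q)) = fun q : ℝ × P2 =>
          (-(deriv σ q.1)) • a (s, (b, q.2)) := by
        funext q
        simp only [hι, hv]
        rw [smul_smul, mul_inv_cancel₀ (hρ0 _).ne', one_smul]
        simp only [hκ]
        rw [hc1 s hz, mul_one]
      rw [hprod]
      have e1 : HasFDerivAt (fun q : ℝ × P2 => a (s, (b, q.2)))
          ((fderiv ℝ a (s, (b, q.2))).comp ((di k).comp (ContinuousLinearMap.snd ℝ ℝ P2))) q := by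
        have e2 : HasFDerivAt (fun q : ℝ × P2 => ((s, (b, q.2)) : TM k))
            ((di k).comp (ContinuousLinearMap.snd ℝ ℝ P2)) q := by
          have e3 : HasFDerivAt (fun q : ℝ × P2 => ((s, (b, q.2)) : TM k))
            ((0 : ℝ × P2 →L[ℝ] ℝ).prod ((0 : ℝ × P2 →L[ℝ] EuclideanSpace ℝ (Fin k)).prod
              (ContinuousLinearMap.snd ℝ ℝ P2))) q :=
            (hasFDerivAt_const _ q).prodMk ((hasFDerivAt_const _ q).prodMk
              (ContinuousLinearMap.snd ℝ ℝ P2).hasFDerivAt)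
          exact e3
        exact ((has.differentiable (by simp) _).hasFDerivAt).comp q e2
      have e4 : HasFDerivAt (fun q : ℝ × P2 => -(deriv σ q.1))
          (-((fderiv ℝ (deriv σ) q.1).comp (ContinuousLinearMap.fst ℝ ℝ P2))) q :=
        (((hσd.differentiable (by simp) q.1).hasFDerivAt).comp q
          (ContinuousLinearMap.fst ℝ ℝ P2).hasFDerivAt).neg
      have e5 : HasFDerivAt (fun q : ℝ × P2 => (-(deriv σ q.1)) • a (s, (b, q.2))) _ q := e4.smul e1
      rw [e5.fderiv]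
      have e6 : HasFDerivAt (fun q : ℝ × P2 => ρ (o + J q)) ((fderiv ℝ ρ (o + J q)).comp J) q :=
        ((hρs.differentiable (by simp) _).hasFDerivAt).comp q (hιd q)
      have e7 : HasDerivAt (fun t : ℝ => ρ (o + J (t, q.2)))
          (fderiv ℝ (fun q : ℝ × P2 => ρ (o + J q)) q (1, 0)) q.1 := by
        rw [e6.fderiv]
        exact e6.comp_hasDerivAt q.1 ((hasDerivAt_id q.1).prodMk (hasDerivAt_const q.1 q.2))
      have e8 : HasDerivAt (fun t : ℝ => ρ (o + J (t, q.2)))
          (deriv σ q.1 * (den Φ (s, (b, q.2)) - 1)) q.1 := by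
        simp only [hι, hρ]
        exact ((((hσs.differentiable (by simp) q.1).hasDerivAt).mul_const _).const_add 1)
      rw [e7.unique e8]
      have e9 := hadiv (s, (b, q.2))
      simp only [add_apply, smul_apply, ContinuousLinearMap.smulRight_apply, neg_apply,
        ContinuousLinearMap.comp_apply, ContinuousLinearMap.coe_fst', ContinuousLinearMap.coe_snd',
        map_zero, neg_zero, zero_smul, add_zero, Prod.smul_fst, Prod.smul_snd, smul_eq_mul]
      linear_combination (-(deriv σ q.1)) * e9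

end Pool.Agent.H84.R2
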