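import Pool.Agent.H84.R2.Fib
import Pool.Agent.H84.PP.Symp

/-!
# Flows which transport a density of the plane
-/

set_option autoImplicit false

open Set Filter Topology Metric Function
open scoped ContDiff

namespace Pool.Agent.H84.R2

open Pool.Agent.W133.DQ Pool.Agent.H84.PP

/-- the area form -/
def ar (u w : P2) : ℝ := u.1 * w.2 - u.2 * w.1

theorem ar_linear (A : P2 →L[ℝ] P2) (u w : P2) :
    ar (A u) w + ar u (A w) = ((A (1, 0)).1 + (A (0, 1)).2) * ar u w := by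
  have hA : ∀ u : P2, A u = u.1 • A (1, 0) + u.2 • A (0, 1) := by
    intro u
    rw [← map_smul, ← map_smul, ← map_add]
    congr 1
    ext <;> simp
  rw [hA u, hA w]
  simp only [ar, Prod.fst_add, Prod.snd_add, Prod.smul_fst, Prod.smul_snd, smul_eq_mul]
  ring

theorem ar_map (A : P2 →L[ℝ] P2) (u w : P2) :
    ar (A u) (A w) = ar (A (1, 0)) (A (0, 1)) * ar u w := by
  have hA : ∀ u : P2, A u = u.1 • A (1, 0) + u.2 • A (0, 1) := by
    intro u
    rw [← map_smul, ← map_smul, ← map_add]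
    congr 1
    ext <;> simp
  rw [hA u, hA w]
  simp only [ar, Prod.fst_add, Prod.snd_add, Prod.smul_fst, Prod.smul_snd, smul_eq_mul]
  ring

theorem flow_density {χ : ℝ × P2 → P2} (hχ : ContDiff ℝ ∞ χ) {v : ℝ × P2 → P2}
    (hv : ContDiff ℝ ∞ v) {ρ : ℝ × P2 → ℝ} (hρ : ContDiff ℝ ∞ ρ) (h0 : ∀ p, χ (0, p) = p)
    (hd : ∀ p t, HasDerivAt (fun t => χ (t, p)) (v (t, χ (t, p))) t)
    (hdiv : ∀ q, (fderiv ℝ (fun q => ρ q • v q) q (0, (1, 0))).1 +
      (fderiv ℝ (fun q => ρ q • v q) q (0, (0, 1))).2 = -fderiv ℝ ρ q (1, 0)) (t : ℝ) (p : P2) :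
    ar (fderiv ℝ χ (t, p) (0, (1, 0))) (fderiv ℝ χ (t, p) (0, (0, 1))) * ρ (t, χ (t, p)) =
      ρ (0, p) := by
  have hDs : ContDiff ℝ ∞ (fderiv ℝ χ) := hχ.fderiv_right (m := ∞) (by simp)
  have hD : ∀ q, HasFDerivAt (fderiv ℝ χ) (fderiv ℝ (fderiv ℝ χ) q) q := fun q =>
    (hDs.differentiable (by simp) q).hasFDerivAt
  have hχd : ∀ q, HasFDerivAt χ (fderiv ℝ χ q) q := fun q =>
    (hχ.differentiable (by simp) q).hasFDerivAt
  have hvd : ∀ q, HasFDerivAt v (fderiv ℝ v q) q := fun q =>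
    (hv.differentiable (by simp) q).hasFDerivAt
  have hρd : ∀ q, HasFDerivAt ρ (fderiv ℝ ρ q) q := fun q =>
    (hρ.differentiable (by simp) q).hasFDerivAt
  have e2 : ∀ q : ℝ × P2, fderiv ℝ χ q (1, 0) = v (q.1, χ q) := by
    rintro ⟨t, p⟩
    have h1 : HasDerivAt (fun t => χ (t, p)) (fderiv ℝ χ (t, p) (1, 0)) t :=
      (hχd (t, p)).comp_hasDerivAt t ((hasDerivAt_id t).prodMk (hasDerivAt_const t p))
    exact h1.unique (hd p t)
  have e3 : ∀ (q : ℝ × P2) (u : P2), fderiv ℝ (fderiv ℝ χ) q (1, 0) (0, u) =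
      fderiv ℝ v (q.1, χ q) (0, fderiv ℝ χ q (0, u)) := by
    intro q u
    have hsymm : IsSymmSndFDerivAt ℝ χ q := hχ.contDiffAt.isSymmSndFDerivAt two_le_infty
    rw [hsymm.eq]
    have h1 : HasFDerivAt (fun q => fderiv ℝ χ q (1, 0)) ((fderiv ℝ (fderiv ℝ χ) q).flip (1, 0))
        q := by
      have h3 := (hD q).clm_apply (hasFDerivAt_const ((1, 0) : ℝ × P2) q)
      refine h3.congr_fderiv ?_
      apply ContinuousLinearMap.ext
      intro w
      simp
    have h4 : HasFDerivAt (fun q : ℝ × P2 => v (q.1, χ q)) ((fderiv ℝ v (q.1, χ q)).comp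
        ((ContinuousLinearMap.fst ℝ ℝ P2).prod (fderiv ℝ χ q))) q :=
      HasFDerivAt.comp (g := v) (f := fun q : ℝ × P2 => (q.1, χ q)) q (hvd (q.1, χ q))
        ((ContinuousLinearMap.fst ℝ ℝ P2).hasFDerivAt.prodMk (hχd q))
    have h5 : (fun q => fderiv ℝ χ q (1, 0)) = fun q => v (q.1, χ q) := funext e2
    rw [h5] at h1
    exact DFunLike.congr_fun (h1.unique h4) (0, u)
  have e4 : ∀ (u : P2) (t : ℝ), HasDerivAt (fun t => fderiv ℝ χ (t, p) (0, u))
      (fderiv ℝ v (t, χ (t, p)) (0, fderiv ℝ χ (t, p) (0, u))) t := by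
    intro u t
    have h1 : HasDerivAt (fun t : ℝ => fderiv ℝ χ (t, p)) (fderiv ℝ (fderiv ℝ χ) (t, p) (1, 0))
        t := (hD (t, p)).comp_hasDerivAt t ((hasDerivAt_id t).prodMk (hasDerivAt_const t p))
    have h3 := h1.clm_apply (hasDerivAt_const t ((0, u) : ℝ × P2))
    have h4 := e3 (t, p) u
    simp only at h4
    rw [← h4]
    refine h3.congr_deriv ?_
    simp
  have e5 : ∀ t, HasDerivAt (fun t => ρ (t, χ (t, p)))
      (fderiv ℝ ρ (t, χ (t, p)) (1, v (t, χ (t, p)))) t := fun t =>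
    (hρd (t, χ (t, p))).comp_hasDerivAt t ((hasDerivAt_id t).prodMk (hd p t))
  have e6 : ∀ t, HasDerivAt (fun t => ar (fderiv ℝ χ (t, p) (0, (1, 0)))
      (fderiv ℝ χ (t, p) (0, (0, 1))) * ρ (t, χ (t, p))) 0 t := by
    intro t
    have hf : ∀ (u : P2), HasDerivAt (fun t => (fderiv ℝ χ (t, p) (0, u)).1)
        (fderiv ℝ v (t, χ (t, p)) (0, fderiv ℝ χ (t, p) (0, u))).1 t := fun u =>
      (ContinuousLinearMap.fst ℝ ℝ ℝ).hasFDerivAt.comp_hasDerivAt t (e4 u t)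
    have hs : ∀ (u : P2), HasDerivAt (fun t => (fderiv ℝ χ (t, p) (0, u)).2)
        (fderiv ℝ v (t, χ (t, p)) (0, fderiv ℝ χ (t, p) (0, u))).2 t := fun u =>
      (ContinuousLinearMap.snd ℝ ℝ ℝ).hasFDerivAt.comp_hasDerivAt t (e4 u t)
    have h1 := ((((hf (1, 0)).mul (hs (0, 1))).sub ((hs (1, 0)).mul (hf (0, 1)))).mul (e5 t))
    refine h1.congr_deriv ?_
    set q : ℝ × P2 := (t, χ (t, p)) with hq
    set U := fderiv ℝ χ (t, p) (0, (1, 0)) with hU
    set W := fderiv ℝ χ (t, p) (0, (0, 1)) with hW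
    have k1 := ar_linear ((fderiv ℝ v q).comp (ContinuousLinearMap.inr ℝ ℝ P2)) U W
    simp only [ContinuousLinearMap.comp_apply, ContinuousLinearMap.inr_apply] at k1
    have k2 := hdiv q
    have k3 : HasFDerivAt (fun q => ρ q • v q) (ρ q • fderiv ℝ v q + (fderiv ℝ ρ q).smulRight (v q))
        q := (hρd q).smul (hvd q)
    rw [k3.fderiv] at k2
    simp only [ContinuousLinearMap.add_apply, ContinuousLinearMap.smul_apply,
      ContinuousLinearMap.smulRight_apply, Prod.fst_add, Prod.snd_add, Prod.smul_fst,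
      Prod.smul_snd, smul_eq_mul] at k2
    have k4 : fderiv ℝ ρ q (1, v q) = fderiv ℝ ρ q (1, 0) + (v q).1 * fderiv ℝ ρ q (0, (1, 0)) +
        (v q).2 * fderiv ℝ ρ q (0, (0, 1)) := by
      rw [← smul_eq_mul, ← smul_eq_mul, ← map_smul, ← map_smul, ← map_add, ← map_add]
      congr 1
      ext <;> simp
    rw [k4]
    unfold ar at k1
    simp only [Pi.mul_apply, Pi.sub_apply]
    linear_combination (ρ q) * k1 + (U.1 * W.2 - U.2 * W.1) * k2
  have e7 := is_const_of_deriv_eq_zero (fun t => (e6 t).differentiableAt)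
    (fun t => (e6 t).deriv) t 0
  rw [e7, h0]
  have h7 : (fun p => χ (0, p)) = id := funext h0
  have h8 : ∀ u : P2, fderiv ℝ χ (0, p) (0, u) = u := by
    intro u
    have h9 : HasFDerivAt (fun p => χ (0, p))
        ((fderiv ℝ χ (0, p)).comp (ContinuousLinearMap.inr ℝ ℝ P2)) p :=
      HasFDerivAt.comp (g := χ) (f := fun p : P2 => ((0 : ℝ), p)) p (hχd (0, p))
        (hasFDerivAt_prodMk_right (𝕜 := ℝ) (0 : ℝ) p)
    rw [h7] at h9
    exact DFunLike.congr_fun (h9.unique (hasFDerivAt_id p)) u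
  rw [h8, h8]
  simp [ar]

end Pool.Agent.H84.R2
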