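import Pool.Agent.H84.R2.B.Smale

/-!
# Smale's theorem with parameters, for isotopies over the parameter space

The proofs are those of `Pool.Agent.H83.BI.Smale` and the files it uses; in addition the isotopies
preserve the value of a linear map `κ`.
-/

set_option autoImplicit false
set_option linter.unusedSectionVars false

open Set Filter Topology Metric Function
open scoped ContDiff Manifold
open Pool.Agent.W133.DQ

namespace Pool.Agent.H84.R2

open Pool.Agent.H83.BI

section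

variable {E F G : Type} [NormedAddCommGroup E] [NormedSpace ℝ E] [FiniteDimensional ℝ E]
  [NormedAddCommGroup F] [NormedSpace ℝ F] [FiniteDimensional ℝ F]
  [NormedAddCommGroup G] [NormedSpace ℝ G]

/-- `f` is smoothly isotopic to the identity, with compact support, over `κ` -/
def KTriv (κ : E →L[ℝ] G) (f : E → E) : Prop :=
  ∃ (Φ : ℝ × E → E) (R : ℝ), ContDiff ℝ ∞ Φ ∧ (∀ t x, Injective (fderiv ℝ (fun y => Φ (t, y)) x)) ∧
    (∀ t x, R ≤ ‖x‖ → Φ (t, x) = x) ∧ (∀ x, Φ (0, x) = x) ∧ (∀ x, Φ (1, x) = f x) ∧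
    ∀ t x, κ (Φ (t, x)) = κ x

theorem KTriv.comp {κ : E →L[ℝ] G} {f g : E → E} (hf : KTriv κ f) (hg : KTriv κ g) :
    KTriv κ (fun x => f (g x)) := by
  obtain ⟨Φ, R, h1, h2, h3, h4, h5, h6⟩ := hf
  obtain ⟨Γ, R', g1, g2, g3, g4, g5, g6⟩ := hg
  refine ⟨fun p => Φ (p.1, Γ p), max R R', h1.comp (contDiff_fst.prodMk g1), ?_, ?_, ?_, ?_,
    fun t x => (h6 t (Γ (t, x))).trans (g6 t x)⟩
  · intro t x
    have e1 : HasFDerivAt (fun y => Γ (t, y)) (fderiv ℝ (fun y => Γ (t, y)) x) x :=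
      ((slice g1 t).differentiable (by simp) x).hasFDerivAt
    have e2 : HasFDerivAt (fun y => Φ (t, y)) (fderiv ℝ (fun y => Φ (t, y)) (Γ (t, x))) (Γ (t, x)) :=
      ((slice h1 t).differentiable (by simp) _).hasFDerivAt
    have e3 := e2.comp x e1
    have e4 : ((fun y => Φ (t, y)) ∘ fun y => Γ (t, y)) = fun y => Φ (t, Γ (t, y)) := rfl
    rw [e4] at e3
    rw [e3.fderiv]
    intro v w hvw
    exact g2 t x (h2 t _ hvw)
  · intro t x hx
    have e1 := g3 t x ((le_max_right _ _).trans hx)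
    show Φ (t, Γ (t, x)) = x
    rw [e1]
    exact h3 t x ((le_max_left _ _).trans hx)
  · intro x
    show Φ (0, Γ (0, x)) = x
    rw [g4, h4]
  · intro x
    show Φ (1, Γ (1, x)) = f (g x)
    rw [g5, h5]

theorem KTriv.inv {κ : E →L[ℝ] G} {f g : E → E} (hf : KTriv κ f) (hr : RightInverse g f) : KTriv κ g := by
  obtain ⟨Φ, R, h1, h2, h3, h4, h5, h6⟩ := hf
  have hb : ∀ t, Bijective (fun y => Φ (t, y)) := fun t =>
    bijective_of_local (slice h1 t) (h2 t) (h3 t)
  let e : ∀ t : ℝ, E ≃ E := fun t => Equiv.ofBijective _ (hb t)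
  have he : ∀ t x, e t x = Φ (t, x) := fun t x => rfl
  let Ψ : ℝ × E → E := fun p => (e p.1).symm p.2
  have hΨ1 : ∀ t x, Φ (t, Ψ (t, x)) = x := fun t x => (e t).apply_symm_apply x
  have hΨ2 : ∀ t x, Ψ (t, Φ (t, x)) = x := fun t x => (e t).symm_apply_apply x
  have hs : ContDiff ℝ ∞ (fun p : ℝ × E => (p.1, Ψ p)) := by
    refine inv_smooth (f := fun p : ℝ × E => (p.1, Φ p)) (contDiff_fst.prodMk h1)
      (hat_inj h1 h2) ?_ ?_
    · rintro ⟨t, x⟩
      show (t, Ψ (t, Φ (t, x))) = (t, x)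
      rw [hΨ2]
    · rintro ⟨t, x⟩
      show (t, Φ (t, Ψ (t, x))) = (t, x)
      rw [hΨ1]
  have hs2 : ContDiff ℝ ∞ Ψ := contDiff_snd.comp hs
  refine ⟨Ψ, R, hs2, ?_, ?_, ?_, ?_, fun t x => ?_⟩
  · intro t x
    exact IsDiffeo.inj ⟨slice hs2 t, _, slice h1 t, hΨ1 t, hΨ2 t⟩ x
  · intro t x hx
    have := hΨ2 t x
    rwa [h3 t x hx] at this
  · intro x
    have := hΨ2 0 x
    rwa [h4] at this
  · intro x
    have := hΨ2 1 (g x)
    rwa [h5, hr x] at this
  · have := h6 t (Ψ (t, x))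
    rw [hΨ1] at this
    exact this.symm

/-- a path of local diffeomorphisms for times in `[0, 1]` is enough -/
theorem ktriv_of_path {κ : E →L[ℝ] G} {f : E → E} {Γ : ℝ × E → E} {R : ℝ} (h1 : ContDiff ℝ ∞ Γ)
    (h2 : ∀ t ∈ Icc (0 : ℝ) 1, ∀ x, Injective (fderiv ℝ (fun y => Γ (t, y)) x))
    (h3 : ∀ t ∈ Icc (0 : ℝ) 1, ∀ x, R ≤ ‖x‖ → Γ (t, x) = x) (h4 : ∀ x, Γ (0, x) = x)
    (h5 : ∀ x, Γ (1, x) = f x)
    (h6 : ∀ t x, κ (Γ (t, x)) = κ x) : KTriv κ f := by
  have hm : ∀ t : ℝ, Real.smoothTransition t ∈ Icc (0 : ℝ) 1 := fun t =>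
    ⟨Real.smoothTransition.nonneg t, Real.smoothTransition.le_one t⟩
  refine ⟨fun p => Γ (Real.smoothTransition p.1, p.2), R, ?_, fun t x => h2 _ (hm t) x,
    fun t x hx => h3 _ (hm t) x hx, fun x => ?_, fun x => ?_, fun t x => h6 _ x⟩
  · exact h1.comp ((Real.smoothTransition.contDiff.comp contDiff_fst).prodMk contDiff_snd)
  · show Γ (Real.smoothTransition 0, x) = x
    rw [Real.smoothTransition.zero]
    exact h4 x
  · show Γ (Real.smoothTransition 1, x) = f x
    rw [Real.smoothTransition.one]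
    exact h5 x

/-- **Moser trick**: a path of submersions which starts with a linear map `π` and is equal to `π`
off a ball ends with `π ∘ g⁻¹`, where `g` is isotopic to the identity. -/
theorem kmoser {κ : E →L[ℝ] G} {ν : F → G} (π : E →L[ℝ] F)
    (hκ : ∀ x, ν (π x) = κ x) {Q : ℝ × E → F} {R : ℝ} (hQ : ContDiff ℝ ∞ Q)
    (hs : ∀ t ∈ Icc (0 : ℝ) 1, ∀ x, Surjective (fderiv ℝ (fun y => Q (t, y)) x))
    (hR : ∀ t ∈ Icc (0 : ℝ) 1, ∀ x, R ≤ ‖x‖ → Q (t, x) = π x) (h0 : ∀ x, Q (0, x) = π x)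
    (hν : ∀ t x, ν (Q (t, x)) = κ x) :
    ∃ g : E → E, KTriv κ g ∧ (∀ x, R ≤ ‖x‖ → g x = x) ∧ ∀ x, Q (1, g x) = π x := by
  have hm : ∀ t : ℝ, Real.smoothTransition t ∈ Icc (0 : ℝ) 1 := fun t =>
    ⟨Real.smoothTransition.nonneg t, Real.smoothTransition.le_one t⟩
  set P : ℝ × E → F := fun p => Q (Real.smoothTransition p.1, p.2) with hP
  have hPs : ContDiff ℝ ∞ P :=
    hQ.comp ((Real.smoothTransition.contDiff.comp contDiff_fst).prodMk contDiff_snd)
  have hPd : ∀ p : ℝ × E, HasFDerivAt P (fderiv ℝ P p) p := fun p =>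
    (hPs.differentiable (by simp) p).hasFDerivAt
  have hPf : ContDiff ℝ ∞ (fderiv ℝ P) := hPs.fderiv_right (m := ∞) (by simp)
  set A : ℝ × E → (E →L[ℝ] F) := fun p => (fderiv ℝ P p).comp (ContinuousLinearMap.inr ℝ ℝ E)
    with hA
  set q : ℝ × E → F := fun p => - fderiv ℝ P p (1, 0) with hq
  have hAs : ContDiff ℝ ∞ A := hPf.clm_comp contDiff_const
  have hqs : ContDiff ℝ ∞ q := (hPf.clm_apply contDiff_const).neg
  have hAeq : ∀ p : ℝ × E, HasFDerivAt (fun y => P (p.1, y)) (A p) p.2 := by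
    intro p
    have e4 : HasFDerivAt (𝕜 := ℝ) (fun y : E => (p.1, y)) (ContinuousLinearMap.inr ℝ ℝ E) p.2 :=
      hasFDerivAt_prodMk_right p.1 p.2
    exact HasFDerivAt.comp (g := P) (f := fun y : E => (p.1, y)) p.2 (hPd p) e4
  have hqeq : ∀ p : ℝ × E, HasDerivAt (fun s => P (s, p.2)) (- q p) p.1 := by
    intro p
    have e4 : HasDerivAt (fun s : ℝ => (s, p.2)) ((1 : ℝ), (0 : E)) p.1 :=
      (hasDerivAt_id' p.1).prodMk (hasDerivAt_const p.1 p.2)
    have e5 := (hPd p).comp_hasDerivAt p.1 e4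
    rw [hq]
    simp only [neg_neg]
    exact e5
  obtain ⟨Y, hY, hAY, hY0⟩ := smooth_solution hAs hqs (fun p => by
    rw [← (hAeq p).fderiv]
    exact hs _ (hm p.1) p.2)
  -- where `q` vanishes
  have hq1 : ∀ s x, R ≤ ‖x‖ → q (s, x) = 0 := by
    intro s x hx
    have h1 := hqeq (s, x)
    have h2 : (fun s => P (s, x)) = fun _ => π x := by
      funext s
      exact hR _ (hm s) x hx
    simp only at h1
    rw [h2] at h1
    have h3 := h1.unique (hasDerivAt_const s (π x))
    exact neg_eq_zero.1 h3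
  have hq2 : ∀ s x, s < 0 → q (s, x) = 0 := by
    intro s x hs
    have h1 := hqeq (s, x)
    have h2 : (fun s => P (s, x)) =ᶠ[𝓝 s] fun _ => Q (0, x) := by
      filter_upwards [Iio_mem_nhds hs] with r hr
      show Q (Real.smoothTransition r, x) = _
      rw [Real.smoothTransition.zero_of_nonpos (le_of_lt hr)]
    have h3 := (h1.congr_of_eventuallyEq h2.symm).unique (hasDerivAt_const s (Q (0, x)))
    exact neg_eq_zero.1 h3
  have hq3 : ∀ s x, 1 < s → q (s, x) = 0 := by
    intro s x hs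
    have h1 := hqeq (s, x)
    have h2 : (fun s => P (s, x)) =ᶠ[𝓝 s] fun _ => Q (1, x) := by
      filter_upwards [Ioi_mem_nhds hs] with r hr
      show Q (Real.smoothTransition r, x) = _
      rw [Real.smoothTransition.one_of_one_le (le_of_lt hr)]
    have h3 := (h1.congr_of_eventuallyEq h2.symm).unique (hasDerivAt_const s (Q (1, x)))
    exact neg_eq_zero.1 h3
  have hYc : HasCompactSupport Y := by
    refine HasCompactSupport.intro ((isCompact_Icc (a := (0 : ℝ)) (b := 1)).prod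
      (isCompact_closedBall (0 : E) R)) ?_
    rintro ⟨s, x⟩ hp
    apply hY0
    by_cases hx : R ≤ ‖x‖
    · exact hq1 s x hx
    · have hx' : x ∈ closedBall (0 : E) R := by
        rw [mem_closedBall_zero_iff]; exact (not_le.1 hx).le
      by_cases h1 : s < 0
      · exact hq2 s x h1
      · by_cases h2 : 1 < s
        · exact hq3 s x h2
        · have h3 : s ∈ Icc (0 : ℝ) 1 := ⟨not_lt.1 h1, not_lt.1 h2⟩
          exact absurd (mk_mem_prod h3 hx') hp
  obtain ⟨Φ, hΦ, hΦ0, hΦd, hΦR, hΦi⟩ := flow_triv Y hY hYc (R := R)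
    (fun s x hx => hY0 _ (hq1 s x hx))
  have hcons : ∀ x s, P (s, Φ (s, x)) = P (0, Φ (0, x)) := by
    intro x s
    have h1 : ∀ s, HasDerivAt (fun s => P (s, Φ (s, x))) 0 s := by
      intro s
      have e1 : HasDerivAt (fun s => (s, Φ (s, x))) ((1 : ℝ), Y (s, Φ (s, x))) s :=
        (hasDerivAt_id' s).prodMk (hΦd s x)
      have e2 := (hPd (s, Φ (s, x))).comp_hasDerivAt s e1
      have e3 : fderiv ℝ P (s, Φ (s, x)) ((1 : ℝ), Y (s, Φ (s, x))) = 0 := by
        have e4 : (((1 : ℝ), Y (s, Φ (s, x))) : ℝ × E) = (1, 0) + (0, Y (s, Φ (s, x))) := by simp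
        rw [e4, map_add]
        have e5 : fderiv ℝ P (s, Φ (s, x)) (0, Y (s, Φ (s, x))) =
            A (s, Φ (s, x)) (Y (s, Φ (s, x))) := rfl
        rw [e5, hAY]
        simp [hq]
      rw [e3] at e2
      exact e2
    exact is_const_of_deriv_eq_zero (fun s => (h1 s).differentiableAt)
      (fun s => (h1 s).deriv) s 0
  have hκΦ : ∀ s x, κ (Φ (s, x)) = κ x := by
    intro s x
    have h1 := hcons x s
    rw [hΦ0] at h1
    have h2 := congrArg ν h1
    simp only [hP] at h2
    rwa [hν, hν] at h2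
  refine ⟨fun x => Φ (1, x), ⟨Φ, R, hΦ, hΦi, hΦR, hΦ0, fun x => rfl, hκΦ⟩,
    fun x hx => hΦR 1 x hx, fun x => ?_⟩
  have h1 := hcons x 1
  rw [hΦ0] at h1
  simp only [hP, Real.smoothTransition.one, Real.smoothTransition.zero] at h1
  rw [h1, h0]

/-- reduction to maps which preserve the fibres of `π` -/
theorem kreduce {κ : E →L[ℝ] G} {ν : F → G} (π : E →L[ℝ] F)
    (hκ : ∀ x, ν (π x) = κ x)
    (hπ : ∀ h : E → E, IsDiffeo h → (∃ R : ℝ, ∀ x, R ≤ ‖x‖ → h x = x) → (∀ x, π (h x) = π x) →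
      KTriv κ h)
    {f : E → E} (hf : IsDiffeo f) {Q : ℝ × E → F} {R : ℝ} (hQ : ContDiff ℝ ∞ Q)
    (hs : ∀ t ∈ Icc (0 : ℝ) 1, ∀ x, Surjective (fderiv ℝ (fun y => Q (t, y)) x))
    (hR : ∀ t ∈ Icc (0 : ℝ) 1, ∀ x, R ≤ ‖x‖ → Q (t, x) = π x) (h0 : ∀ x, Q (0, x) = π x)
    (h1 : ∀ x, Q (1, x) = π (f x)) (hfR : ∃ R : ℝ, ∀ x, R ≤ ‖x‖ → f x = x)
    (hν : ∀ t x, ν (Q (t, x)) = κ x) : KTriv κ f := by
  obtain ⟨g, hg, hgR, hgQ⟩ := kmoser π hκ hQ hs hR h0 hν
  obtain ⟨R', hfR'⟩ := hfR
  obtain ⟨Φ, R₁, g1, g2, g3, g4, g5, g6⟩ := id hg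
  have hgd : IsDiffeo g := by
    have h2 : g = fun x => Φ (1, x) := funext fun x => (g5 x).symm
    rw [h2]
    exact isDiffeo_of_local (slice g1 1) (g2 1) (g3 1)
  obtain ⟨hgs, k, hks, hl, hr⟩ := hgd
  obtain ⟨hfs, k', hks', hl', hr'⟩ := hf
  have hd : IsDiffeo (fun x => f (g x)) := by
    refine ⟨hfs.comp hgs, fun x => k (k' x), hks.comp hks', fun x => ?_, fun x => ?_⟩
    · show k (k' (f (g x))) = x
      rw [hl', hl]
    · show f (g (k (k' x))) = x
      rw [hr, hr']
  have h3 : KTriv κ (fun x => f (g x)) := by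
    refine hπ _ hd ⟨max R R', fun x hx => ?_⟩ fun x => ?_
    · rw [hgR x ((le_max_left _ _).trans hx), hfR' x ((le_max_right _ _).trans hx)]
    · rw [← h1, hgQ]
  have h4 := h3.comp (hg.inv hr)
  have h5 : (fun x => f (g (k x))) = f := by
    funext x
    rw [hr]
  rw [h5] at h4
  exact h4

/-- maps preserving the fibres of a linear map with fibres of dimension at most `1` -/
theorem ktriv_of_fiber_one {κ : E →L[ℝ] G} (π : E →L[ℝ] F)
    (hκ : ∀ x, π x = 0 → κ x = 0) (hπ : Module.finrank ℝ (LinearMap.ker (π : E →ₗ[ℝ] F)) ≤ 1)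
    (h : E → E) (hd : IsDiffeo h) (hR : ∃ R : ℝ, ∀ x, R ≤ ‖x‖ → h x = x)
    (hp : ∀ x, π (h x) = π x) : KTriv κ h := by
  obtain ⟨R, hR⟩ := hR
  have hs := hd.1
  have hdf : ∀ x, HasFDerivAt h (fderiv ℝ h x) x := fun x =>
    (hs.differentiable (by simp) x).hasFDerivAt
  have hpd : ∀ x v, π (fderiv ℝ h x v) = π v := by
    intro x v
    have e1 : HasFDerivAt (fun y => π (h y)) (π.comp (fderiv ℝ h x)) x :=
      π.hasFDerivAt.comp x (hdf x)
    have e2 : (fun y => π (h y)) = fun y => π y := funext hp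
    rw [e2] at e1
    have e3 := e1.unique π.hasFDerivAt
    exact DFunLike.congr_fun e3 v
  -- the factor on the fibres
  have key : ∀ v, π v = 0 → v ≠ 0 → ∀ x, ∃ a : ℝ, 0 < a ∧ fderiv ℝ h x v = a • v := by
    intro v hv hv0
    have hfac : ∀ x, ∃ a : ℝ, fderiv ℝ h x v = a • v := by
      intro x
      have h1 : (⟨v, hv⟩ : LinearMap.ker (π : E →ₗ[ℝ] F)) ≠ 0 := by
        intro h2
        exact hv0 (congrArg Subtype.val h2)
      have h2 : fderiv ℝ h x v ∈ LinearMap.ker (π : E →ₗ[ℝ] F) := by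
        rw [LinearMap.mem_ker]
        exact (hpd x v).trans hv
      obtain ⟨u, hu⟩ := (finrank_le_one_iff (K := ℝ)).1 hπ
      obtain ⟨a, ha⟩ := hu ⟨v, hv⟩
      obtain ⟨b, hb⟩ := hu ⟨_, h2⟩
      have ha0 : a ≠ 0 := by
        rintro rfl
        rw [zero_smul] at ha
        exact h1 ha.symm
      refine ⟨b / a, ?_⟩
      have h3 := congrArg Subtype.val ha
      have h4 := congrArg Subtype.val hb
      simp only [Submodule.coe_smul] at h3 h4
      rw [← h3, smul_smul, div_mul_cancel₀ _ ha0, h4, h3]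
    choose a ha using hfac
    obtain ⟨ℓ, hℓ⟩ : ∃ ℓ : E →L[ℝ] ℝ, ℓ v = 1 := by
      obtain ⟨ℓ, hℓ⟩ := exists_dual_vector'' ℝ v
      refine ⟨(‖v‖)⁻¹ • ℓ, ?_⟩
      rw [smul_apply, hℓ.2]
      simp [hv0]
    have haℓ : ∀ x, a x = ℓ (fderiv ℝ h x v) := by
      intro x
      rw [ha x, map_smul, hℓ, smul_eq_mul, mul_one]
    have hac : Continuous a := by
      have h1 : a = fun x => ℓ (fderiv ℝ h x v) := funext haℓ
      rw [h1]
      exact ℓ.continuous.comp ((hs.continuous_fderiv (by simp)).clm_apply continuous_const)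
    have han : ∀ x, a x ≠ 0 := by
      intro x h0
      have h1 := ha x
      rw [h0, zero_smul] at h1
      apply hv0
      apply hd.inj x
      rw [h1, map_zero]
    have hnt : Nontrivial E := ⟨v, 0, hv0⟩
    obtain ⟨z, hz⟩ := NormedSpace.exists_lt_norm ℝ E R
    have haz : a z = 1 := by
      have h1 : h =ᶠ[𝓝 z] fun x => x := by
        filter_upwards [(isOpen_lt continuous_const continuous_norm).mem_nhds hz] with x hx
        exact hR x (le_of_lt hx)
      rw [haℓ, h1.fderiv_eq]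
      simp [hℓ]
    intro x
    refine ⟨a x, ?_, ha x⟩
    by_contra hneg
    obtain ⟨y, hy⟩ := mem_range_of_exists_le_of_exists_ge hac (c := 0) ⟨x, not_lt.1 hneg⟩
      ⟨z, by rw [haz]; exact zero_le_one⟩
    exact han y hy
  refine ktriv_of_path (Γ := fun p => p.2 + p.1 • (h p.2 - p.2)) (R := R)
    (contDiff_snd.add (contDiff_fst.smul ((hs.comp contDiff_snd).sub contDiff_snd))) ?_ ?_ ?_ ?_ ?_
  · intro t ht x
    have e1 : HasFDerivAt (fun y => y + t • (h y - y))
        (ContinuousLinearMap.id ℝ E + t • (fderiv ℝ h x - ContinuousLinearMap.id ℝ E)) x :=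
      (hasFDerivAt_id x).add (((hdf x).sub (hasFDerivAt_id x)).const_smul t)
    show Injective (fderiv ℝ (fun y => y + t • (h y - y)) x)
    rw [e1.fderiv, injective_iff_map_eq_zero]
    intro v hv
    have hv' : v + t • (fderiv ℝ h x v - v) = 0 := hv
    by_contra hv0
    have h1 : π v = 0 := by
      have := congrArg π hv'
      rw [map_add, map_smul, map_sub, hpd, sub_self, smul_zero, add_zero, map_zero] at this
      exact this
    obtain ⟨a, ha, hav⟩ := key v h1 hv0 x
    rw [hav] at hv'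
    have h2 : (1 + t * (a - 1)) • v = 0 := by
      rw [← hv']
      module
    rcases smul_eq_zero.1 h2 with h3 | h3
    · have h4 : (1 - t) + t * a = 0 := by linarith
      rcases ht.1.eq_or_lt with h5 | h5
      · rw [← h5] at h4; norm_num at h4
      · have := mul_pos h5 ha
        linarith [ht.2]
    · exact hv0 h3
  · intro t _ x hx
    show x + t • (h x - x) = x
    rw [hR x hx, sub_self, smul_zero, add_zero]
  · intro x
    show x + (0 : ℝ) • (h x - x) = x
    rw [zero_smul, add_zero]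
  · intro x
    show x + (1 : ℝ) • (h x - x) = h x
    rw [one_smul]
    abel
  · intro t x
    show κ (x + t • (h x - x)) = κ x
    have h1 : κ (h x - x) = 0 := by
      apply hκ
      rw [map_sub, hp, sub_self]
    rw [map_add, map_smul, h1, smul_zero, add_zero]

end

section

variable {B : Type} [NormedAddCommGroup B] [NormedSpace ℝ B] [FiniteDimensional ℝ B]

theorem ksmale {h : B × P2 → B × P2} (hd : IsDiffeo h) (hR : ∃ R : ℝ, ∀ z, R ≤ ‖z‖ → h z = z)
    (hb : ∀ z, (h z).1 = z.1) :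
    KTriv (ContinuousLinearMap.fst ℝ B P2) h := by
  obtain ⟨R₀, hR₀⟩ := hR
  obtain ⟨hs, k, ks, hl, hr⟩ := id hd
  have hkR₀ : ∀ z, R₀ ≤ ‖z‖ → k z = z := by
    intro z hz
    have := hl z
    rwa [hR₀ z hz] at this
  obtain ⟨R, hR, hRR⟩ : ∃ R : ℝ, 0 < R ∧ R₀ < R :=
    ⟨|R₀| + 1, by positivity, by linarith [le_abs_self R₀]⟩
  have hkb : ∀ z, (k z).1 = z.1 := by
    intro z
    have := hb (k z)
    rw [hr z] at this
    exact this.symm
  have hhd : ∀ z, HasFDerivAt h (fderiv ℝ h z) z := fun z =>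
    (hs.differentiable (by simp) z).hasFDerivAt
  have hkd : ∀ z, HasFDerivAt k (fderiv ℝ k z) z := fun z =>
    (ks.differentiable (by simp) z).hasFDerivAt
  set e₁ : B × P2 := (0, (1, 0)) with he₁
  set D : B × P2 → B × P2 := fun z => fderiv ℝ h (k z) e₁ with hD
  have hDs : ContDiff ℝ ∞ D :=
    ((hs.fderiv_right (m := ∞) (by simp)).comp ks).clm_apply contDiff_const
  have hD1 : ∀ z, (D z).1 = 0 := by
    intro z
    have e1 := (hhd (k z)).fst
    have e2 : (fun x => (h x).1) = fun x => x.1 := funext hb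
    rw [e2] at e1
    have e3 := e1.unique (ContinuousLinearMap.fst ℝ B P2).hasFDerivAt
    exact DFunLike.congr_fun e3 e₁
  have hD2 : ∀ z, (D z).2 ≠ 0 := by
    intro z h0
    have h1 : D z = 0 := Prod.ext (hD1 z) h0
    have h2 : e₁ = 0 := by
      apply hd.inj (k z)
      rw [map_zero]
      exact h1
    have h3 := congrArg (fun w : B × P2 => w.2.1) h2
    simp [he₁] at h3
  have hDR : ∀ z, R ≤ ‖z‖ → D z = e₁ := by
    intro z hz
    have h1 : h =ᶠ[𝓝 z] fun x => x := by
      filter_upwards [(isOpen_lt continuous_const continuous_norm).mem_nhds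
        (lt_of_lt_of_le hRR hz)] with x hx
      exact hR₀ x (le_of_lt hx)
    simp only [hD]
    rw [hkR₀ z (hRR.le.trans hz), h1.fderiv_eq]
    simp
  have hkD : ∀ z, fderiv ℝ k z (D z) = e₁ := by
    intro z
    have e1 : HasFDerivAt k (fderiv ℝ k z) (h (k z)) := by
      rw [hr z]; exact hkd z
    have e2 := e1.comp (k z) (hhd (k z))
    have e3 : k ∘ h = fun x => x := funext hl
    rw [e3] at e2
    have e4 := e2.unique (hasFDerivAt_id (k z))
    exact DFunLike.congr_fun e4 e₁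
  -- the angle function
  set u : B × P2 → ℂ := fun z => Complex.equivRealProdCLM.symm (D z).2 with hu
  have hus : ContDiff ℝ ∞ u :=
    Complex.equivRealProdCLM.symm.contDiff.comp (contDiff_snd.comp hDs)
  have hure : ∀ z, (u z).re = (D z).2.1 := fun z => rfl
  have huim : ∀ z, (u z).im = (D z).2.2 := fun z => rfl
  obtain ⟨ψ, hψs, hψR, hψ⟩ := angle hus (fun z h0 => by
      apply hD2 z
      refine Prod.ext ?_ ?_
      · rw [← hure, h0]; rfl
      · rw [← huim, h0]; rfl) hR (fun z hz => by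
      apply Complex.ext
      · rw [hure, hDR z hz]; rfl
      · rw [huim, hDR z hz]; rfl)
  obtain ⟨q, hqs, hq1, hq2, hq3, hq4, hq5⟩ := straight_fun hψs hR hψR
  have hnorm : ∀ (b : B) (x y : ℝ), (R ≤ |x| ∨ R ≤ |y| ∨ R ≤ ‖b‖) →
      R ≤ ‖((b, (x, y)) : B × P2)‖ := by
    intro b x y h
    rw [Prod.norm_def, Prod.norm_def]
    rcases h with h | h | h
    · exact (h.trans (le_max_left _ _)).trans (le_max_right _ _)
    · exact (h.trans (le_max_right _ _)).trans (le_max_right _ _)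
    · exact h.trans (le_max_left _ _)
  have hq6 : ∀ z, q (1, z) = (k z).2.2 := by
    refine hq5 (fun z => (k z).2.2) ?_ ?_ ?_
    · exact (contDiff_snd.comp (contDiff_snd.comp ks)).differentiable (by simp)
    · intro z
      obtain ⟨ρ, hρ, h1, h2⟩ := hψ z
      have e1 : HasFDerivAt (fun z => (k z).2.2)
          ((ContinuousLinearMap.snd ℝ ℝ ℝ).comp ((ContinuousLinearMap.snd ℝ B P2).comp
            (fderiv ℝ k z))) z :=
        (ContinuousLinearMap.snd ℝ ℝ ℝ).hasFDerivAt.comp z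
          ((ContinuousLinearMap.snd ℝ B P2).hasFDerivAt.comp z (hkd z))
      rw [e1.fderiv]
      have e2 : D z = ρ • ((0, (Real.cos (ψ z), Real.sin (ψ z))) : B × P2) := by
        refine Prod.ext ?_ (Prod.ext ?_ ?_)
        · rw [hD1]; simp
        · rw [← hure, h1]; simp
        · rw [← huim, h2]; simp
      have e3 := hkD z
      rw [e2, map_smul] at e3
      have e4 : fderiv ℝ k z (0, (Real.cos (ψ z), Real.sin (ψ z))) = ρ⁻¹ • e₁ := by
        rw [← e3, smul_smul, inv_mul_cancel₀ hρ.ne', one_smul]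
      show (fderiv ℝ k z (0, (Real.cos (ψ z), Real.sin (ψ z)))).2.2 = 0
      rw [e4]
      simp [he₁]
    · intro b x y hx
      show (k (b, (x, y))).2.2 = y
      rw [hkR₀ _ (hRR.le.trans (hnorm b x y (Or.inl (by
        rw [abs_of_nonpos (by linarith)]; linarith))))]
  -- the path of submersions
  set κ : ℝ → ℝ := fun x => Real.smoothTransition (x - (R + 1)) with hκ
  have hκs : ContDiff ℝ ∞ κ :=
    Real.smoothTransition.contDiff.comp (contDiff_id.sub contDiff_const)
  have hκ0 : ∀ x, x ≤ R + 1 → κ x = 0 := fun x hx =>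
    Real.smoothTransition.zero_of_nonpos (by linarith)
  have hκ1 : ∀ x, R + 2 ≤ x → κ x = 1 := fun x hx =>
    Real.smoothTransition.one_of_one_le (by linarith)
  have hκn : ∀ x, 0 ≤ κ x := fun x => Real.smoothTransition.nonneg _
  have hκl : ∀ x, κ x ≤ 1 := fun x => Real.smoothTransition.le_one _
  set P : ℝ × (B × P2) → ℝ := fun w => q w + κ w.2.2.1 * (w.2.2.2 - q w) with hP
  have hPs : ContDiff ℝ ∞ P :=
    hqs.add ((hκs.comp (contDiff_fst.comp (contDiff_snd.comp contDiff_snd))).mul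
      ((contDiff_snd.comp (contDiff_snd.comp contDiff_snd)).sub hqs))
  set π : B × P2 →L[ℝ] B × ℝ := (ContinuousLinearMap.fst ℝ B P2).prod
    ((ContinuousLinearMap.snd ℝ ℝ ℝ).comp (ContinuousLinearMap.snd ℝ B P2)) with hπ
  have hπa : ∀ z, π z = (z.1, z.2.2) := fun z => rfl
  have hfin : Module.finrank ℝ (LinearMap.ker (π : B × P2 →ₗ[ℝ] B × ℝ)) ≤ 1 := by
    refine finrank_le_one ⟨e₁, ?_⟩ ?_
    · rw [LinearMap.mem_ker]
      show π e₁ = 0
      rw [hπa]; rfl
    · rintro ⟨⟨b, x, y⟩, hw⟩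
      rw [LinearMap.mem_ker] at hw
      have hw' : ((b, y) : B × ℝ) = 0 := hw
      obtain ⟨h1, h2⟩ := Prod.mk.inj hw'
      refine ⟨x, Subtype.ext ?_⟩
      show x • e₁ = (b, (x, y))
      rw [h1, h2, he₁]
      simp
  -- the derivative of `q` in the `y`-direction on the right
  have hqy : ∀ t b x y, R < x → 0 < fderiv ℝ (fun z => q (t, z)) (b, (x, y)) (0, (0, 1)) := by
    intro t b x y hx
    have hqt : ∀ z, HasFDerivAt (fun z => q (t, z)) (fderiv ℝ (fun z => q (t, z)) z) z :=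
      fun z => ((slice hqs t).differentiable (by simp) z).hasFDerivAt
    have hne : ∀ y, fderiv ℝ (fun z => q (t, z)) (b, (x, y)) (0, (0, 1)) ≠ 0 := by
      intro y h0
      obtain ⟨⟨v1, v2⟩, hv⟩ := hq1 t (b, (x, y))
      apply hv
      have e1 : ((0, (v1, v2)) : B × P2) = v1 • (0, (1, 0)) + v2 • (0, (0, 1)) := by simp
      rw [e1, map_add, map_smul, map_smul, h0, smul_zero, add_zero]
      have e2 : HasDerivAt (fun s : ℝ => ((b, (s, y)) : B × P2)) (0, (1, 0)) x :=
        (hasDerivAt_const x b).prodMk ((hasDerivAt_id' x).prodMk (hasDerivAt_const x y))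
      have e3 := (hqt (b, (x, y))).comp_hasDerivAt x e2
      have e4 : ((fun z => q (t, z)) ∘ fun s : ℝ => ((b, (s, y)) : B × P2)) =ᶠ[𝓝 x]
          fun _ => q (t, (b, (R, y))) := by
        filter_upwards [Ioi_mem_nhds hx] with s hs
        have := hq4 t b R y (s - R) le_rfl (by linarith [mem_Ioi.1 hs])
        rw [add_sub_cancel] at this
        exact this
      have e5 := (e3.congr_of_eventuallyEq e4.symm).unique (hasDerivAt_const x _)
      rw [e5, smul_zero]
    have hcont : Continuous (fun y => fderiv ℝ (fun z => q (t, z)) (b, (x, y)) (0, (0, 1))) := by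
      have h1 : Continuous (fderiv ℝ (fun z => q (t, z))) :=
        (slice hqs t).continuous_fderiv (by simp)
      exact (h1.comp (by fun_prop)).clm_apply continuous_const
    have hone : fderiv ℝ (fun z => q (t, z)) (b, (x, R + 1)) (0, (0, 1)) = 1 := by
      have e2 : HasDerivAt (fun s : ℝ => ((b, (x, s)) : B × P2)) (0, (0, 1)) (R + 1) :=
        (hasDerivAt_const _ b).prodMk ((hasDerivAt_const _ x).prodMk (hasDerivAt_id' _))
      have e3 := (hqt (b, (x, R + 1))).comp_hasDerivAt (R + 1) e2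
      have e4 : ((fun z => q (t, z)) ∘ fun s : ℝ => ((b, (x, s)) : B × P2)) =ᶠ[𝓝 (R + 1)]
          fun s => s := by
        filter_upwards [Ioi_mem_nhds (show R < R + 1 by linarith)] with s hs
        exact hq2 t b x s (Or.inr (Or.inl ((le_of_lt hs).trans (le_abs_self s))))
      exact (e3.congr_of_eventuallyEq e4.symm).unique (hasDerivAt_id' _)
    by_contra hneg
    obtain ⟨y', hy'⟩ := mem_range_of_exists_le_of_exists_ge hcont (c := 0) ⟨y, not_lt.1 hneg⟩
      ⟨R + 1, by rw [hone]; exact zero_le_one⟩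
    exact hne y' hy'
  have hPd : ∀ t z, ∃ v : P2, fderiv ℝ (fun z => P (t, z)) z (0, v) ≠ 0 := by
    rintro t ⟨b, x, y⟩
    by_cases hx : x < R + 1
    · obtain ⟨v, hv⟩ := hq1 t (b, (x, y))
      refine ⟨v, ?_⟩
      have h1 : (fun z => P (t, z)) =ᶠ[𝓝 (b, (x, y))] fun z => q (t, z) := by
        have h2 : Continuous (fun z : B × P2 => z.2.1) := by fun_prop
        filter_upwards [h2.continuousAt.eventually_lt continuousAt_const hx] with z hz
        show q (t, z) + κ z.2.1 * (z.2.2 - q (t, z)) = q (t, z)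
        rw [hκ0 _ hz.le, zero_mul, add_zero]
      rw [h1.fderiv_eq]
      exact hv
    · push Not at hx
      refine ⟨(0, 1), ?_⟩
      have hqt : HasFDerivAt (fun z => q (t, z)) (fderiv ℝ (fun z => q (t, z)) (b, (x, y)))
          (b, (x, y)) := ((slice hqs t).differentiable (by simp) _).hasFDerivAt
      have hPt : HasFDerivAt (fun z => P (t, z)) (fderiv ℝ (fun z => P (t, z)) (b, (x, y)))
          (b, (x, y)) := ((slice hPs t).differentiable (by simp) _).hasFDerivAt
      have e2 : HasDerivAt (fun s : ℝ => ((b, (x, s)) : B × P2)) (0, (0, 1)) y :=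
        (hasDerivAt_const _ b).prodMk ((hasDerivAt_const _ x).prodMk (hasDerivAt_id' _))
      have e3 := hqt.comp_hasDerivAt y e2
      have e4 := hPt.comp_hasDerivAt y e2
      have e5 : HasDerivAt (fun s : ℝ => q (t, (b, (x, s))) + κ x * (s - q (t, (b, (x, s)))))
          (fderiv ℝ (fun z => q (t, z)) (b, (x, y)) (0, (0, 1)) +
            κ x * (1 - fderiv ℝ (fun z => q (t, z)) (b, (x, y)) (0, (0, 1)))) y := by
        have e6 : HasDerivAt (fun s : ℝ => q (t, (b, (x, s))))
            (fderiv ℝ (fun z => q (t, z)) (b, (x, y)) (0, (0, 1))) y := e3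
        exact e6.add (((hasDerivAt_id' y).sub e6).const_mul (κ x))
      have e7 := e4.unique e5
      rw [e7]
      have h1 := hqy t b x y (by linarith)
      have h2 := hκn x
      have h3 := hκl x
      intro h4
      rcases h2.eq_or_lt with h5 | h5
      · rw [← h5, zero_mul, add_zero] at h4
        exact h1.ne' h4
      · have h6 := mul_nonneg (sub_nonneg.2 h3) h1.le
        linarith
  have key : KTriv (ContinuousLinearMap.fst ℝ B P2) k := by
    refine kreduce (ν := Prod.fst) π (fun _ => rfl) (ktriv_of_fiber_one π (fun x hx => by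
      rw [hπa] at hx
      exact (Prod.mk.inj hx).1) hfin) (f := k) ⟨ks, h, hs, hr, hl⟩
      (Q := fun w => (w.2.1, P w)) (R := R + 2) ((contDiff_fst.comp contDiff_snd).prodMk hPs)
      ?_ ?_ ?_ ?_ ⟨R₀, hkR₀⟩ (fun _ _ => rfl)
    · intro t _ z
      have e1 : HasFDerivAt (fun z => P (t, z)) (fderiv ℝ (fun z => P (t, z)) z) z :=
        ((slice hPs t).differentiable (by simp) z).hasFDerivAt
      have e2 : HasFDerivAt (fun z : B × P2 => (z.1, P (t, z)))
          ((ContinuousLinearMap.fst ℝ B P2).prod (fderiv ℝ (fun z => P (t, z)) z)) z :=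
        (ContinuousLinearMap.fst ℝ B P2).hasFDerivAt.prodMk e1
      show Surjective (fderiv ℝ (fun z : B × P2 => (z.1, P (t, z))) z)
      rw [e2.fderiv]
      obtain ⟨v, hv⟩ := hPd t z
      rintro ⟨β, s⟩
      refine ⟨(β, ((s - fderiv ℝ (fun z => P (t, z)) z (β, 0)) /
        fderiv ℝ (fun z => P (t, z)) z (0, v)) • v), ?_⟩
      refine Prod.ext rfl ?_
      show fderiv ℝ (fun z => P (t, z)) z (β, _ • v) = s
      have e3 : ∀ r : ℝ, ((β, r • v) : B × P2) = (β, 0) + r • (0, v) := by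
        intro r; simp
      rw [e3, map_add, map_smul, smul_eq_mul, div_mul_cancel₀ _ hv]
      ring
    · rintro t _ ⟨b, x, y⟩ hz
      show ((b, q (t, (b, (x, y))) + κ x * (y - q (t, (b, (x, y))))) : B × ℝ) = (b, y)
      refine Prod.ext rfl ?_
      show q (t, (b, (x, y))) + κ x * (y - q (t, (b, (x, y)))) = y
      rw [Prod.norm_def, Prod.norm_def] at hz
      simp only [Real.norm_eq_abs] at hz
      have h0 : (x ≤ -R ∨ R ≤ |y| ∨ R ≤ ‖b‖) ∨ R + 2 ≤ x := by
        rcases le_max_iff.1 hz with h | h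
        · left; right; right; linarith
        · rcases le_max_iff.1 h with h | h
          · rcases le_abs'.1 h with h | h
            · left; left; linarith
            · right; exact h
          · left; right; left; linarith
      rcases h0 with h0 | h0
      · rw [hq2 t b x y h0, sub_self, mul_zero, add_zero]
      · rw [hκ1 x h0]; ring
    · intro z
      show ((z.1, q (0, z) + κ z.2.1 * (z.2.2 - q (0, z))) : B × ℝ) = (z.1, z.2.2)
      rw [hq3, sub_self, mul_zero, add_zero]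
    · rintro ⟨b, x, y⟩
      show ((b, q (1, (b, (x, y))) + κ x * (y - q (1, (b, (x, y))))) : B × ℝ) =
        ((k (b, (x, y))).1, (k (b, (x, y))).2.2)
      rw [hkb, hq6]
      refine Prod.ext rfl ?_
      show (k (b, (x, y))).2.2 + κ x * (y - (k (b, (x, y))).2.2) = (k (b, (x, y))).2.2
      by_cases hx : x ≤ R + 1
      · rw [hκ0 x hx, zero_mul, add_zero]
      · push Not at hx
        have h1 : k (b, (x, y)) = (b, (x, y)) := by
          apply hkR₀
          refine hRR.le.trans (hnorm b x y (Or.inl ?_))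
          exact (by linarith : R ≤ x).trans (le_abs_self x)
        rw [h1]
        simp
  exact key.inv hl

end

end Pool.Agent.H84.R2
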