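import Pool.Agent.H84.R2.Correct

/-!
# The group of compactly supported symplectomorphisms of the plane is weakly contractible
-/

set_option autoImplicit false

open Set Filter Topology Metric Function
open scoped ContDiff

noncomputable section

namespace Pool.Agent.H84.R2

open Pool.Agent.W133.DQ Pool.Agent.H84.PP Pool.Agent.X277.Sy Pool.Agent.H83.BI

variable {k : ℕ}

theorem sph_ext {f g : Spheroid k 1} (h : ∀ b z, (f.fam b).map z = (g.fam b).map z) : f = g := by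
  obtain ⟨f, hf, hf'⟩ := f
  obtain ⟨g, hg, hg'⟩ := g
  have : f = g := by
    funext b
    exact SympCt.ext (funext (h b))
  subst this
  rfl

theorem slice_fderiv {Φ : TM k → P2} (hΦ : ContDiff ℝ ∞ Φ) (s : ℝ) (b : EuclideanSpace ℝ (Fin k))
    (p : P2) : HasFDerivAt (fun p => Φ (s, (b, p))) ((fderiv ℝ Φ (s, (b, p))).comp (di k)) p := by
  have e2 : HasFDerivAt (fun p : P2 => ((s, (b, p)) : TM k)) (di k) p := by
    have e3 : HasFDerivAt (fun p : P2 => ((s, (b, p)) : TM k))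
      ((0 : P2 →L[ℝ] ℝ).prod ((0 : P2 →L[ℝ] EuclideanSpace ℝ (Fin k)).prod
        (ContinuousLinearMap.id ℝ P2))) p :=
      (hasFDerivAt_const _ p).prodMk ((hasFDerivAt_const _ p).prodMk (hasFDerivAt_id p))
    exact e3
  exact ((hΦ.differentiable (by simp) _).hasFDerivAt).comp p e2

/-- the composition of a family with the correction at a fixed time -/
theorem step_fixed {Φ : TM k → P2} (hΦ : ContDiff ℝ ∞ Φ) {R : ℝ}
    (hR : ∀ s w, R ≤ ‖w‖ → Φ (s, w) = w.2) {χ : ℝ × TM k → P2} {R' : ℝ} (hχ : ContDiff ℝ ∞ χ)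
    (hχR : ∀ t s w, R' ≤ ‖w‖ → χ (t, (s, w)) = w.2)
    (hχ1 : ∀ t (z : TM k), z.1 ∈ Icc (0 : ℝ) 1 →
        ar (fderiv ℝ χ (t, z) (0, di k (1, 0))) (fderiv ℝ χ (t, z) (0, di k (0, 1))) *
          (1 + Real.smoothTransition t * (den Φ (z.1, (z.2.1, χ (t, z))) - 1)) = 1)
    {s₀ : ℝ} (hs₀ : s₀ ∈ Icc (0 : ℝ) 1) (hden : ∀ w, den Φ (s₀, w) = 1) :
    ∃ f g : Spheroid k 1, Homotopic f g ∧
      (∀ b z, (f.fam b).map z = frP (Φ (s₀, (b, χ (0, (s₀, (b, toP z))))))) ∧
      ∀ b z, (g.fam b).map z = frP (Φ (s₀, (b, χ (1, (s₀, (b, toP z)))))) := by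
  have hsm : ContDiff ℝ ∞ (fun z : TM k => χ (z.1, (s₀, z.2))) :=
    hχ.comp (contDiff_fst.prodMk (contDiff_const.prodMk contDiff_snd))
  refine homotopic_of (Θ := fun z => Φ (s₀, (z.2.1, χ (z.1, (s₀, z.2)))))
    (hΦ.comp (contDiff_const.prodMk ((contDiff_fst.comp contDiff_snd).prodMk hsm))) ?_
    (R := max R R') ?_
  · rintro ⟨t, b, p⟩ ht
    have h1 : ∀ u, fderiv ℝ (fun z : TM k => Φ (s₀, (z.2.1, χ (z.1, (s₀, z.2))))) (t, (b, p))
        (di k u) = fderiv ℝ Φ (s₀, (b, χ (t, (s₀, (b, p)))))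
          (di k (fderiv ℝ χ (t, (s₀, (b, p))) (0, di k u))) := by
      intro u
      have e1 := slice_fderiv (Φ := fun z : TM k => Φ (s₀, (z.2.1, χ (z.1, (s₀, z.2)))))
        (hΦ.comp (contDiff_const.prodMk ((contDiff_fst.comp contDiff_snd).prodMk hsm))) t b p
      have e2 := slice_fderiv (Φ := fun z => χ (t, z))
        (hχ.comp (contDiff_const.prodMk contDiff_id)) s₀ b p
      have e3 := slice_fderiv hΦ s₀ b (χ (t, (s₀, (b, p))))
      have e4 : HasFDerivAt (fun p => Φ (s₀, (b, χ (t, (s₀, (b, p))))))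
        (((fderiv ℝ Φ (s₀, (b, χ (t, (s₀, (b, p)))))).comp (di k)).comp
          ((fderiv ℝ (fun z => χ (t, z)) (s₀, (b, p))).comp (di k))) p :=
        HasFDerivAt.comp (g := fun p => Φ (s₀, (b, p))) (f := fun p => χ (t, (s₀, (b, p)))) p e3 e2
      have e5 := DFunLike.congr_fun (e1.unique e4) u
      simp only [ContinuousLinearMap.comp_apply] at e5
      rw [e5]
      have e6 : HasFDerivAt (fun z => χ (t, z)) ((fderiv ℝ χ (t, (s₀, (b, p)))).comp
          (ContinuousLinearMap.inr ℝ ℝ (TM k))) (s₀, (b, p)) :=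
        HasFDerivAt.comp (g := χ) (f := fun z : TM k => (t, z)) (s₀, (b, p))
          ((hχ.differentiable (by simp) _).hasFDerivAt)
          (hasFDerivAt_prodMk_right (𝕜 := ℝ) t (s₀, (b, p)))
      rw [e6.fderiv]
      rfl
    rw [h1, h1]
    have h2 := ar_map ((fderiv ℝ Φ (s₀, (b, χ (t, (s₀, (b, p)))))).comp (di k))
      (fderiv ℝ χ (t, (s₀, (b, p))) (0, di k (1, 0))) (fderiv ℝ χ (t, (s₀, (b, p))) (0, di k (0, 1)))
    simp only [ContinuousLinearMap.comp_apply] at h2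
    rw [h2]
    have h3 := hχ1 t (s₀, (b, p)) hs₀
    simp only at h3
    rw [hden, sub_self, mul_zero, add_zero, mul_one] at h3
    rw [h3, mul_one]
    exact hden (b, χ (t, (s₀, (b, p))))
  · intro s _ w hw
    show Φ (s₀, (w.1, χ (s, (s₀, w)))) = w.2
    rw [hχR _ _ _ ((le_max_right _ _).trans hw)]
    exact hR s₀ w ((le_max_left _ _).trans hw)

/-- the composition of a family with the full correction -/
theorem step_move {Φ : TM k → P2} (hΦ : ContDiff ℝ ∞ Φ) {R : ℝ}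
    (hR : ∀ s w, R ≤ ‖w‖ → Φ (s, w) = w.2) {χ : ℝ × TM k → P2} {R' : ℝ} (hχ : ContDiff ℝ ∞ χ)
    (hχR : ∀ t s w, R' ≤ ‖w‖ → χ (t, (s, w)) = w.2)
    (hχ1 : ∀ t (z : TM k), z.1 ∈ Icc (0 : ℝ) 1 →
        ar (fderiv ℝ χ (t, z) (0, di k (1, 0))) (fderiv ℝ χ (t, z) (0, di k (0, 1))) *
          (1 + Real.smoothTransition t * (den Φ (z.1, (z.2.1, χ (t, z))) - 1)) = 1) :
    ∃ f g : Spheroid k 1, Homotopic f g ∧
      (∀ b z, (f.fam b).map z = frP (Φ (0, (b, χ (1, (0, (b, toP z))))))) ∧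
      ∀ b z, (g.fam b).map z = frP (Φ (1, (b, χ (1, (1, (b, toP z)))))) := by
  have hsm : ContDiff ℝ ∞ (fun z : TM k => χ (1, z)) := hχ.comp (contDiff_const.prodMk contDiff_id)
  refine homotopic_of (Θ := fun z => Φ (z.1, (z.2.1, χ (1, z))))
    (hΦ.comp (contDiff_fst.prodMk ((contDiff_fst.comp contDiff_snd).prodMk hsm))) ?_
    (R := max R R') ?_
  · rintro ⟨s, b, p⟩ hs
    have h1 : ∀ u, fderiv ℝ (fun z : TM k => Φ (z.1, (z.2.1, χ (1, z)))) (s, (b, p))
        (di k u) = fderiv ℝ Φ (s, (b, χ (1, (s, (b, p)))))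
          (di k (fderiv ℝ χ (1, (s, (b, p))) (0, di k u))) := by
      intro u
      have e1 := slice_fderiv (Φ := fun z : TM k => Φ (z.1, (z.2.1, χ (1, z))))
        (hΦ.comp (contDiff_fst.prodMk ((contDiff_fst.comp contDiff_snd).prodMk hsm))) s b p
      have e2 := slice_fderiv (Φ := fun z => χ (1, z)) hsm s b p
      have e3 := slice_fderiv hΦ s b (χ (1, (s, (b, p))))
      have e4 : HasFDerivAt (fun p => Φ (s, (b, χ (1, (s, (b, p))))))
        (((fderiv ℝ Φ (s, (b, χ (1, (s, (b, p)))))).comp (di k)).comp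
          ((fderiv ℝ (fun z => χ (1, z)) (s, (b, p))).comp (di k))) p :=
        HasFDerivAt.comp (g := fun p => Φ (s, (b, p))) (f := fun p => χ (1, (s, (b, p)))) p e3 e2
      have e5 := DFunLike.congr_fun (e1.unique e4) u
      simp only [ContinuousLinearMap.comp_apply] at e5
      rw [e5]
      have e6 : HasFDerivAt (fun z => χ (1, z)) ((fderiv ℝ χ (1, (s, (b, p)))).comp
          (ContinuousLinearMap.inr ℝ ℝ (TM k))) (s, (b, p)) :=
        HasFDerivAt.comp (g := χ) (f := fun z : TM k => ((1 : ℝ), z)) (s, (b, p))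
          ((hχ.differentiable (by simp) _).hasFDerivAt)
          (hasFDerivAt_prodMk_right (𝕜 := ℝ) (1 : ℝ) (s, (b, p)))
      rw [e6.fderiv]
      rfl
    rw [h1, h1]
    have h2 := ar_map ((fderiv ℝ Φ (s, (b, χ (1, (s, (b, p)))))).comp (di k))
      (fderiv ℝ χ (1, (s, (b, p))) (0, di k (1, 0))) (fderiv ℝ χ (1, (s, (b, p))) (0, di k (0, 1)))
    simp only [ContinuousLinearMap.comp_apply] at h2
    rw [h2]
    have h3 := hχ1 1 (s, (b, p)) hs
    simp only at h3
    rw [Real.smoothTransition.one, one_mul, add_sub_cancel, mul_comm] at h3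
    exact h3
  · intro s _ w hw
    show Φ (s, (w.1, χ (1, (s, w)))) = w.2
    rw [hχR _ _ _ ((le_max_right _ _).trans hw)]
    exact hR s w ((le_max_left _ _).trans hw)

/-- Every smooth spheroid in the group of compactly supported symplectomorphisms of the plane is
contractible. -/
theorem piTrivial_one (k : ℕ) : PiTrivial k 1 := by
  intro f
  obtain ⟨r, hr1, hr2⟩ := f.bounded
  have hfi : IsSmoothFamily (fun b => (f.fam b)⁻¹) := f.smooth.inv
  set h : EuclideanSpace ℝ (Fin k) × P2 → EuclideanSpace ℝ (Fin k) × P2 :=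
    fun w => (w.1, toP ((f.fam w.1).map (frP w.2))) with hh
  set h' : EuclideanSpace ℝ (Fin k) × P2 → EuclideanSpace ℝ (Fin k) × P2 :=
    fun w => (w.1, toP ((f.fam w.1)⁻¹.map (frP w.2))) with hh'
  have hs : ContDiff ℝ ∞ h := contDiff_fst.prodMk (toP.contDiff.comp
    (ContDiff.comp f.smooth (contDiff_fst.prodMk (frP.contDiff.comp contDiff_snd))))
  have hs' : ContDiff ℝ ∞ h' := contDiff_fst.prodMk (toP.contDiff.comp
    (ContDiff.comp hfi (contDiff_fst.prodMk (frP.contDiff.comp contDiff_snd))))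
  have hd : IsDiffeo h := by
    refine ⟨hs, h', hs', fun w => ?_, fun w => ?_⟩
    · simp only [hh, hh', frP_toP, inv_map_map, toP_frP]
    · simp only [hh, hh', frP_toP, map_inv_map, toP_frP]
  have hnorm : ∀ p : P2, ‖p‖ ≤ ‖frP p‖ := by
    intro p
    conv_lhs => rw [← toP_frP p]
    rw [Prod.norm_def]
    exact max_le (abs_px_le (n := 0) (frP p)) (abs_py_le (n := 0) (frP p))
  have hR : ∃ R : ℝ, ∀ w, R ≤ ‖w‖ → h w = w := by
    refine ⟨r + 1, fun w hw => ?_⟩
    rw [Prod.norm_def] at hw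
    rcases le_max_iff.1 hw with h1 | h1
    · simp only [hh]
      rw [hr1 w.1 (by linarith), one_map, toP_frP]
    · simp only [hh]
      rw [hr2 w.1 (frP w.2), toP_frP]
      rw [mem_closedBall_zero_iff, not_le]
      have := hnorm w.2
      linarith
  obtain ⟨Φ, R, h1, h2, h3, h4, h5, h6⟩ := ksmale hd hR (fun _ => rfl)
  set Φ2 : TM k → P2 := fun z => (Φ z).2 with hΦ2
  have hΦs : ContDiff ℝ ∞ Φ2 := contDiff_snd.comp h1
  have hΦR : ∀ s w, R ≤ ‖w‖ → Φ2 (s, w) = w.2 := by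
    intro s w hw
    simp only [hΦ2]
    rw [h3 s w hw]
  have hne : ∀ z, den Φ2 z ≠ 0 := by
    rintro ⟨s, w⟩
    refine ar_ne_zero (A := (fderiv ℝ Φ2 (s, w)).comp (di k)) ?_
    rw [injective_iff_map_eq_zero]
    intro u hu
    have e1 : HasFDerivAt (fun w => Φ (s, w))
        ((ContinuousLinearMap.fst ℝ (EuclideanSpace ℝ (Fin k)) P2).prod
          ((fderiv ℝ Φ2 (s, w)).comp (ContinuousLinearMap.inr ℝ ℝ _))) w := by
      have e2 : HasFDerivAt (fun w => Φ2 (s, w))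
          ((fderiv ℝ Φ2 (s, w)).comp (ContinuousLinearMap.inr ℝ ℝ _)) w :=
        HasFDerivAt.comp (g := Φ2) (f := fun w : EuclideanSpace ℝ (Fin k) × P2 => (s, w)) w
          ((hΦs.differentiable (by simp) _).hasFDerivAt) (hasFDerivAt_prodMk_right (𝕜 := ℝ) s w)
      have e3 := (ContinuousLinearMap.fst ℝ (EuclideanSpace ℝ (Fin k)) P2).hasFDerivAt
        (x := w) |>.prodMk e2
      refine e3.congr_of_eventuallyEq (Eventually.of_forall fun w => ?_)
      exact Prod.ext (h6 s w) rfl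
    have e4 := h2 s w
    rw [e1.fderiv, injective_iff_map_eq_zero] at e4
    have e5 := e4 (0, u) (Prod.ext rfl hu)
    exact (Prod.mk.inj e5).2
  have hden0 : ∀ w, den Φ2 (0, w) = 1 := by
    rintro ⟨b, p⟩
    have e1 := slice_fderiv hΦs 0 b p
    have e2 : (fun p => Φ2 (0, (b, p))) = fun p => p := by
      funext p
      simp only [hΦ2]
      rw [h4]
    rw [e2] at e1
    have e3 := e1.unique (hasFDerivAt_id p)
    have e4 : ∀ u, fderiv ℝ Φ2 (0, (b, p)) (di k u) = u := fun u => DFunLike.congr_fun e3 u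
    unfold den
    rw [e4, e4]
    simp [ar]
  have hpos : ∀ z, 0 < den Φ2 z := by
    rintro ⟨s, w⟩
    have hc : Continuous (fun s : ℝ => den Φ2 (s, w)) :=
      (den_smooth hΦs).continuous.comp (by fun_prop)
    by_contra hneg
    obtain ⟨y, hy⟩ := mem_range_of_exists_le_of_exists_ge hc (c := 0) ⟨s, not_lt.1 hneg⟩
      ⟨0, by rw [hden0]; exact zero_le_one⟩
    exact hne _ hy
  have hden1 : ∀ w, den Φ2 (1, w) = 1 := by
    rintro ⟨b, p⟩
    have e1 := slice_fderiv hΦs 1 b p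
    have e2 : (fun p => Φ2 (1, (b, p))) = fun p => toP ((f.fam b).map (frP p)) := by
      funext p
      simp only [hΦ2]
      rw [h5]
    rw [e2] at e1
    have e3 : HasFDerivAt (fun p => toP ((f.fam b).map (frP p)))
        (toP.comp ((fderiv ℝ (f.fam b).map (frP p)).comp frP)) p :=
      toP.hasFDerivAt.comp p ((((f.fam b).isSymp.smooth.differentiable (by simp) _).hasFDerivAt).comp
        p frP.hasFDerivAt)
    have e4 : ∀ u, fderiv ℝ Φ2 (1, (b, p)) (di k u) =
        toP (fderiv ℝ (f.fam b).map (frP p) (frP u)) := fun u =>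
      DFunLike.congr_fun (e1.unique e3) u
    unfold den
    rw [e4, e4, ← omega_toP, (f.fam b).isSymp.symplectic, omega_toP, toP_frP, toP_frP]
    simp [ar]
  obtain ⟨χ, R', hχ, hχ0, hχR, hχ1⟩ := correct hΦs hΦR hpos
  obtain ⟨f₀, g₀, k1, k2, k3⟩ := step_fixed hΦs hΦR hχ hχR hχ1 (s₀ := 0) ⟨le_rfl, zero_le_one⟩ hden0
  obtain ⟨f₁, g₁, l1, l2, l3⟩ := step_fixed hΦs hΦR hχ hχR hχ1 (s₀ := 1) ⟨zero_le_one, le_rfl⟩ hden1
  obtain ⟨f₂, g₂, m1, m2, m3⟩ := step_move hΦs hΦR hχ hχR hχ1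
  have q0 : f₀ = trivialSpheroid k 1 := by
    apply sph_ext
    intro b z
    rw [k2, hχ0]
    simp only [hΦ2]
    rw [h4]
    show frP (toP z) = z
    exact frP_toP z
  have q1 : g₀ = f₂ := by
    apply sph_ext
    intro b z
    rw [k3, m2]
  have q2 : g₂ = g₁ := by
    apply sph_ext
    intro b z
    rw [l3, m3]
  have q3 : f₁ = f := by
    apply sph_ext
    intro b z
    rw [l2, hχ0]
    simp only [hΦ2]
    rw [h5]
    simp only [hh, frP_toP]
  rw [q0, q1] at k1
  rw [q2] at m1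
  rw [q3] at l1
  exact (k1.trans (m1.trans l1.symm)).symm

end Pool.Agent.H84.R2
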