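import Pool.Agent.H84.R2.Dens
import Pool.Agent.H84.PP.PFam

/-!
# The plane: families of symplectomorphisms from families of maps
-/

set_option autoImplicit false

open Set Filter Topology Metric Function
open scoped ContDiff

noncomputable section

namespace Pool.Agent.H84.R2

open Pool.Agent.W133.DQ Pool.Agent.H84.PP Pool.Agent.X277.Sy

/-- coordinates of the plane -/
def toP : E 1 →L[ℝ] P2 := (px (n := 0)).prod (py (n := 0))

/-- the point with the given coordinates -/
def frP : P2 →L[ℝ] E 1 :=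
  (ContinuousLinearMap.fst ℝ ℝ ℝ).smulRight (ex (n := 0)) +
    (ContinuousLinearMap.snd ℝ ℝ ℝ).smulRight (ey (n := 0))

theorem toP_frP (p : P2) : toP (frP p) = p := by
  simp [toP, frP]

theorem frP_toP (z : E 1) : frP (toP z) = z := by
  refine ext3 (n := 0) ?_ ?_ (Subsingleton.elim _ _)
  · simp [toP, frP]
  · simp [toP, frP]

theorem omega_toP (u v : E 1) : omega u v = ar (toP u) (toP v) := by
  rw [omega_split (n := 0)]
  have : omega (pv (n := 0) u) (pv (n := 0) v) = 0 := by simp [omega]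
  rw [this, add_zero]
  rfl

theorem norm_le_toP (z : E 1) : ‖z‖ ≤ 2 * ‖toP z‖ := by
  have h1 := norm_le_split (n := 0) z
  have h2 : pv (n := 0) z = 0 := Subsingleton.elim _ _
  rw [h2, norm_zero, add_zero] at h1
  have h3 : |px (n := 0) z| ≤ ‖toP z‖ := by
    rw [Prod.norm_def]; exact le_max_left _ _
  have h4 : |py (n := 0) z| ≤ ‖toP z‖ := by
    rw [Prod.norm_def]; exact le_max_right _ _
  linarith

variable {k : ℕ}

/-- the space of the parameters and the time -/
abbrev TM (k : ℕ) : Type := ℝ × (EuclideanSpace ℝ (Fin k) × P2)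

/-- a direction in the plane -/
def di (k : ℕ) : P2 →L[ℝ] TM k :=
  (ContinuousLinearMap.inr ℝ ℝ (EuclideanSpace ℝ (Fin k) × P2)).comp
    (ContinuousLinearMap.inr ℝ (EuclideanSpace ℝ (Fin k)) P2)

theorem di_apply (u : P2) : di k u = (0, (0, u)) := rfl

theorem exists_fam {Θ : TM k → P2} (hΘ : ContDiff ℝ ∞ Θ)
    (hdet : ∀ z : TM k, z.1 ∈ Icc (0 : ℝ) 1 →
      ar (fderiv ℝ Θ z (di k (1, 0))) (fderiv ℝ Θ z (di k (0, 1))) = 1) {R : ℝ}
    (hR : ∀ s ∈ Icc (0 : ℝ) 1, ∀ w : EuclideanSpace ℝ (Fin k) × P2, R ≤ ‖w‖ → Θ (s, w) = w.2) :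
    ∃ (F : ℝ × EuclideanSpace ℝ (Fin k) → SympCt 1) (r : ℝ), IsSmoothFamily F ∧
      (∀ t b z, (F (t, b)).map z = frP (Θ (Real.smoothTransition t, (b, toP z)))) ∧
      (∀ t b, r ≤ ‖b‖ → F (t, b) = 1) ∧ ∀ q, SupportedIn (closedBall 0 r) (F q).map := by
  have hm : ∀ t : ℝ, Real.smoothTransition t ∈ Icc (0 : ℝ) 1 := fun t =>
    ⟨Real.smoothTransition.nonneg t, Real.smoothTransition.le_one t⟩
  have hsm : ContDiff ℝ ∞ (fun p : (ℝ × EuclideanSpace ℝ (Fin k)) × E 1 =>
      frP (Θ (Real.smoothTransition p.1.1, (p.1.2, toP p.2)))) :=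
    frP.contDiff.comp (hΘ.comp ((Real.smoothTransition.contDiff.comp
      (contDiff_fst.comp contDiff_fst)).prodMk ((contDiff_snd.comp contDiff_fst).prodMk
        (toP.contDiff.comp contDiff_snd))))
  have hsupp : ∀ (q : ℝ × EuclideanSpace ℝ (Fin k)) (z : E 1), z ∉ closedBall (0 : E 1) (2 * |R|) →
      frP (Θ (Real.smoothTransition q.1, (q.2, toP z))) = z := by
    intro q z hz
    rw [mem_closedBall_zero_iff, not_le] at hz
    rw [hR _ (hm q.1)]
    · exact frP_toP z
    · have h1 := norm_le_toP z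
      have h2 : ‖toP z‖ ≤ ‖((q.2, toP z) : EuclideanSpace ℝ (Fin k) × P2)‖ := by
        rw [Prod.norm_def]; exact le_max_right _ _
      have h3 := le_abs_self R
      linarith
  have hsymp : ∀ q : ℝ × EuclideanSpace ℝ (Fin k),
      IsSymplectomorphism (fun z => frP (Θ (Real.smoothTransition q.1, (q.2, toP z)))) := by
    intro q
    refine mkSymp one_pos (hsm.comp (contDiff_const.prodMk contDiff_id)) (fun x u v => ?_)
      (isCompact_closedBall (0 : E 1) (2 * |R|)) (hsupp q)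
    have h1 : HasFDerivAt (fun z : E 1 => frP (Θ (Real.smoothTransition q.1, (q.2, toP z))))
        (frP.comp ((fderiv ℝ Θ (Real.smoothTransition q.1, (q.2, toP x))).comp
          ((di k).comp toP))) x := by
      have e1 : HasFDerivAt (fun z : E 1 => ((Real.smoothTransition q.1, (q.2, toP z)) : TM k))
          ((di k).comp toP) x := by
        have e2 : HasFDerivAt (fun z : E 1 => ((Real.smoothTransition q.1, (q.2, toP z)) : TM k))
            ((0 : E 1 →L[ℝ] ℝ).prod ((0 : E 1 →L[ℝ] EuclideanSpace ℝ (Fin k)).prod toP)) x :=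
          (hasFDerivAt_const _ x).prodMk ((hasFDerivAt_const _ x).prodMk toP.hasFDerivAt)
        exact e2
      exact frP.hasFDerivAt.comp x
        (((hΘ.differentiable (by simp) _).hasFDerivAt).comp x e1)
    rw [h1.fderiv, omega_toP, omega_toP]
    simp only [ContinuousLinearMap.comp_apply, toP_frP]
    have h2 := ar_map ((fderiv ℝ Θ (Real.smoothTransition q.1, (q.2, toP x))).comp (di k))
      (toP u) (toP v)
    simp only [ContinuousLinearMap.comp_apply] at h2
    rw [h2, hdet _ (hm q.1), one_mul]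
  refine ⟨fun q => ⟨_, hsymp q, _, isCompact_closedBall (0 : E 1) (2 * |R|), hsupp q⟩, 2 * |R|, hsm,
    fun _ _ _ => rfl, fun t b hb => ?_, hsupp⟩
  apply SympCt.ext
  funext z
  show frP (Θ (Real.smoothTransition t, (b, toP z))) = z
  rw [hR _ (hm t)]
  · exact frP_toP z
  · have h2 : ‖b‖ ≤ ‖((b, toP z) : EuclideanSpace ℝ (Fin k) × P2)‖ := by
      rw [Prod.norm_def]; exact le_max_left _ _
    have h3 := le_abs_self R
    have h4 := abs_nonneg R
    linarith

/-- A path of area preserving maps is a homotopy. -/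
theorem homotopic_of {Θ : TM k → P2} (hΘ : ContDiff ℝ ∞ Θ)
    (hdet : ∀ z : TM k, z.1 ∈ Icc (0 : ℝ) 1 →
      ar (fderiv ℝ Θ z (di k (1, 0))) (fderiv ℝ Θ z (di k (0, 1))) = 1) {R : ℝ}
    (hR : ∀ s ∈ Icc (0 : ℝ) 1, ∀ w : EuclideanSpace ℝ (Fin k) × P2, R ≤ ‖w‖ → Θ (s, w) = w.2) :
    ∃ f g : Spheroid k 1, Homotopic f g ∧ (∀ b z, (f.fam b).map z = frP (Θ (0, (b, toP z)))) ∧
      ∀ b z, (g.fam b).map z = frP (Θ (1, (b, toP z))) := by
  obtain ⟨F, r, h1, h2, h3, h4⟩ := exists_fam hΘ hdet hR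
  have hs : ∀ t : ℝ, IsSmoothFamily (fun b : EuclideanSpace ℝ (Fin k) => F (t, b)) := fun t =>
    h1.comp (f := fun b : EuclideanSpace ℝ (Fin k) => (t, b)) (contDiff_const.prodMk contDiff_id)
  refine ⟨⟨fun b => F (0, b), hs 0, r, h3 0, fun b => h4 (0, b)⟩,
    ⟨fun b => F (1, b), hs 1, r, h3 1, fun b => h4 (1, b)⟩,
    ⟨closedBall 0 r, isCompact_closedBall _ _, F, h1, fun _ => rfl, fun _ => rfl, ⟨r, h3⟩, h4⟩,
    fun b z => ?_, fun b z => ?_⟩
  · show (F (0, b)).map z = _
    rw [h2, Real.smoothTransition.zero]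
  · show (F (1, b)).map z = _
    rw [h2, Real.smoothTransition.one]

end Pool.Agent.H84.R2
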